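import Pool.Agent.Q197.MG.Law
import Pool.Agent.Q197.ML.BudL

/-!
# Project MG, module Abs: averages of a function with log-normal tails, prices and budgets
-/

set_option autoImplicit false

open MeasureTheory ProbabilityTheory Filter Asymptotics InformationTheory
open Pool.Agent.Q197.ML (Dv ps dev_le ent_event ent_event' mix mix_prob mix_kl mix_ge block mean mean_tendsto blocks
  pow_le_exp lin_le_sq log_tendsto min_not_summable dev_bdd meas block_meas log_two_pow summable_sq sm sm_add)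
open scoped ENNReal Topology

namespace Pool.Agent.Q197.MG

noncomputable section

/-- `N` independent variables with the law `ν` -/
def prodN (ν : Measure ℕ) (N : ℕ) : Measure (Fin N → ℕ) := Measure.pi fun _ => ν

/-- the average of `f (x i)` -/
def avg (f : ℕ → ℝ) {N : ℕ} (x : Fin N → ℕ) : ℝ := (∑ i, f (x i)) / N

theorem prodN_prob (ν : Measure ℕ) [IsProbabilityMeasure ν] (N : ℕ) : IsProbabilityMeasure (prodN ν N) := by
  unfold prodN
  infer_instance

theorem model_dev {ν : Measure ℕ} [IsProbabilityMeasure ν] {f : ℕ → ℝ} {L : ℝ} (hM : Mom ν f L) {ε η : ℝ}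
    (hε : 0 < ε) (hη0 : 0 < η) (hη1 : η ≤ 1) : ∀ᶠ N : ℕ in atTop,
    (prodN ν N).real (Dv f 1 N ε) ≤ Real.exp (-((1 - η) * (Real.log N ^ 2 / L))) := by
  set V : ℝ := ∫ r, f r ^ 2 ∂ν with hV
  have hV0 : 0 ≤ V := integral_nonneg fun r => sq_nonneg _
  have hκ0 := hM.L_pos
  obtain ⟨C, hC, htail⟩ := hM.tail
  set δ : ℝ := η / 4 with hδ
  have hδ0 : 0 < δ := by positivity
  have hδ1 : δ ≤ 1 / 4 := by rw [hδ]; linarith
  have A1 := log_tendsto.eventually (lin_le_sq (A := 1) (B := Real.log (2 * C)) (c := η / 2 / L) (by positivity))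
  have A2 := log_tendsto.eventually (pow_le_exp (k := 2) hδ0 (c := ε * L / 16) (by positivity))
  have A3 := log_tendsto.eventually (pow_le_exp (k := 1) hδ0 (c := ε / 16) (by positivity))
  have A4 := log_tendsto.eventually (pow_le_exp (k := 0) hδ0 (c := ε / 16 / (Real.log 8 + 1)) (by
    have := Real.log_nonneg (by norm_num : (1 : ℝ) ≤ 8)
    positivity))
  have A5 := log_tendsto.eventually (pow_le_exp (k := 0) (δ := 1 - δ) (by linarith) (c := ε / 8 / (V + 1)) (by positivity))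
  filter_upwards [A1, A2, A3, A4, A5, eventually_ge_atTop 1] with N a1 a2 a3 a4 a5 hN
  have hN0 : (0 : ℝ) < N := by exact_mod_cast hN
  have hN1 : (1 : ℝ) ≤ N := by exact_mod_cast hN
  set x : ℝ := Real.log N with hx
  have hx0 : 0 ≤ x := Real.log_nonneg hN1
  have hNx : (N : ℝ) = Real.exp x := (Real.exp_log hN0).symm
  set T : ℝ := Real.exp ((1 - δ) * x) with hT
  have hT0 : 0 < T := Real.exp_pos _
  have a5' : V + 1 ≤ ε / 8 * T := by
    have h := mul_le_mul_of_nonneg_left a5 (by positivity : 0 ≤ V + 1)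
    have e : (V + 1) * (ε / 8 / (V + 1) * T) = ε / 8 * T := by field_simp
    rw [pow_zero, mul_one, e] at h
    exact h
  have hVT : V / T ≤ ε / 2 := by
    rw [div_le_iff₀ hT0]
    have : 0 < ε * T := by positivity
    linarith
  have hl : 0 ≤ 1 / T := by positivity
  have hlT : 1 / T * T ≤ 1 := by rw [one_div, inv_mul_cancel₀ hT0.ne']
  have main := dev_le (ν := ν) (f := f) (m := 1) (V := V) hM.nonneg hM.int hM.mean hM.sq le_rfl hT0 hVT hl hlT N
  refine main.trans ?_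
  have hu0 : 0 ≤ x ^ 2 / L := by positivity
  -- first term
  have t1 : (N : ℝ) * ν.real {r | T < f r} ≤ 1 / 2 * Real.exp (-((1 - η) * (x ^ 2 / L))) := by
    have h1 := htail ((1 - δ) * x) (mul_nonneg (by linarith) hx0)
    have h2 : (N : ℝ) * ν.real {r | T < f r} ≤ Real.exp x * (C * Real.exp (-(((1 - δ) * x) ^ 2 / L))) := by
      rw [hNx]
      exact mul_le_mul_of_nonneg_left h1 (Real.exp_pos _).le
    refine h2.trans ?_
    have h3 : Real.exp (x + Real.log (2 * C) + -(((1 - δ) * x) ^ 2 / L)) ≤ Real.exp (-((1 - η) * (x ^ 2 / L))) := by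
      refine Real.exp_le_exp.2 ?_
      have h4 : ((1 - δ) * x) ^ 2 / L = (1 - δ) ^ 2 * (x ^ 2 / L) := by ring
      have h5 : η / 2 / L * x ^ 2 = η / 2 * (x ^ 2 / L) := by ring
      rw [h5, one_mul] at a1
      rw [h4]
      have h6 : 1 - η / 2 ≤ (1 - δ) ^ 2 := by rw [hδ]; nlinarith
      nlinarith
    rw [Real.exp_add, Real.exp_add, Real.exp_log (show (0 : ℝ) < 2 * C by positivity)] at h3
    linarith
  -- second term
  have t2 : 2 * ((N : ℝ) + 1) * Real.exp (N * ((1 / T) ^ 2 * V) - 1 / T * (ε * N / 2)) ≤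
      1 / 2 * Real.exp (-((1 - η) * (x ^ 2 / L))) := by
    have e1 : (N : ℝ) * (1 / T) = Real.exp (δ * x) := by
      rw [hNx, hT, one_div, ← Real.exp_neg, ← Real.exp_add]
      congr 1
      ring
    have e2 : (N : ℝ) * ((1 / T) ^ 2 * V) - 1 / T * (ε * N / 2) = Real.exp (δ * x) * (V / T) -
        ε / 2 * Real.exp (δ * x) := by
      rw [← e1]
      field_simp
    have e3 : V / T ≤ ε / 8 := by
      rw [div_le_iff₀ hT0]
      linarith
    have e4 : 2 * ((N : ℝ) + 1) ≤ 4 * Real.exp x := by rw [← hNx]; linarith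
    have hE : 0 < Real.exp (δ * x) := Real.exp_pos _
    have e5 : Real.exp (x + Real.log 8 + (Real.exp (δ * x) * (V / T) - ε / 2 * Real.exp (δ * x))) ≤
        Real.exp (-((1 - η) * (x ^ 2 / L))) := by
      refine Real.exp_le_exp.2 ?_
      have f1 : x ≤ ε / 16 * Real.exp (δ * x) := by rw [pow_one] at a3; exact a3
      have f2 : Real.log 8 ≤ ε / 16 * Real.exp (δ * x) := by
        have hl8 := Real.log_nonneg (by norm_num : (1 : ℝ) ≤ 8)
        rw [pow_zero, div_mul_eq_mul_div, le_div_iff₀ (by positivity), one_mul] at a4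
        linarith
      have f3 : x ^ 2 / L ≤ ε / 16 * Real.exp (δ * x) := by
        rw [div_le_iff₀ hκ0]
        calc x ^ 2 ≤ ε * L / 16 * Real.exp (δ * x) := a2
          _ = _ := by ring
      have f4 : Real.exp (δ * x) * (V / T) ≤ Real.exp (δ * x) * (ε / 8) := mul_le_mul_of_nonneg_left e3 hE.le
      have f5 : (1 - η) * (x ^ 2 / L) ≤ x ^ 2 / L := by nlinarith
      have f6 : 0 < ε * Real.exp (δ * x) := mul_pos hε hE
      linarith
    rw [Real.exp_add, Real.exp_add, Real.exp_log (show (0 : ℝ) < 8 by norm_num)] at e5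
    rw [e2]
    have f7 := mul_le_mul_of_nonneg_right e4 (Real.exp_pos (Real.exp (δ * x) * (V / T) - ε / 2 * Real.exp (δ * x))).le
    linarith
  linarith

theorem dev_sub {f : ℕ → ℝ} {N : ℕ} (hN : 1 ≤ N) (ε : ℝ) :
    {x : Fin N → ℕ | ε < |avg f x - 1|} ⊆ Dv f 1 N ε := by
  intro x hx
  refine ⟨N, le_rfl, ?_⟩
  have hN0 : (0 : ℝ) < N := by exact_mod_cast hN
  have e : ps f 1 x N = N * (avg f x - 1) := by
    unfold ps avg
    have h1 : (Finset.univ.filter fun i : Fin N => (i : ℕ) < N) = Finset.univ :=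
      Finset.filter_true_of_mem fun i _ => i.2
    rw [h1, Finset.sum_sub_distrib, Finset.sum_const, Finset.card_univ, Fintype.card_fin, nsmul_eq_mul, mul_one]
    field_simp
  rw [e, abs_mul, abs_of_pos hN0, mul_comm]
  exact mul_lt_mul_of_pos_left hx hN0

/-- the cost of one very large value -/
theorem cost_le {ν : Measure ℕ} {f : ℕ → ℝ} {L : ℝ} (hM : Mom ν f L) (K : ℝ) {η : ℝ} (hη : 0 < η) :
    ∀ᶠ N : ℕ in atTop, ∃ i, Real.exp (Real.log N + K) ≤ f i ∧ 0 < ν.real {i} ∧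
      Real.log (1 / ν.real {i}) ≤ (1 + η) * (Real.log N ^ 2 / L) := by
  have hL := hM.L_pos
  set D : ℝ := |K| / L + 2 with hD
  have A1 := log_tendsto.eventually (lin_le_sq (A := 2 * D) (B := L * D ^ 2 + Real.log 2)
    (c := η / L) (by positivity))
  filter_upwards [A1, log_tendsto.eventually (eventually_ge_atTop |K|), eventually_ge_atTop 1] with N a1 a2 hN
  have hN1 : (1 : ℝ) ≤ N := by exact_mod_cast hN
  set x : ℝ := Real.log N with hx
  have hx0 : 0 ≤ x := Real.log_nonneg hN1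
  have hy : 0 ≤ x + K := by linarith [neg_abs_le K]
  obtain ⟨i, h1, h2, h4⟩ := hM.atom (x + K) hy
  refine ⟨i, h1, h2, h4.trans ?_⟩
  have h5 : (x + K) / L + 2 ≤ x / L + D := by
    rw [hD, add_div]
    have : K / L ≤ |K| / L := div_le_div_of_nonneg_right (le_abs_self K) hL.le
    linarith
  have h6 : 0 ≤ (x + K) / L + 2 := by positivity
  have h7 := mul_le_mul_of_nonneg_right (pow_le_pow_left₀ h6 h5 2) hL.le
  have h8 : (x / L + D) ^ 2 * L = x ^ 2 / L + 2 * D * x + L * D ^ 2 := by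
    field_simp
    ring
  have h9 : (1 + η) * (x ^ 2 / L) = x ^ 2 / L + η / L * x ^ 2 := by ring
  rw [h9]
  linarith

theorem first_real {ν : Measure ℕ} [IsProbabilityMeasure ν] {N : ℕ} (i0 : Fin N) (m : ℕ) :
    (prodN ν N).real {x | x i0 = m} = ν.real {m} := by
  have h := (measurePreserving_eval (fun _ : Fin N => ν) i0).measure_preimage
    (s := {m}) (MeasurableSet.of_discrete.nullMeasurableSet)
  rw [measureReal_def, measureReal_def, ← h]
  rfl

theorem avg_ge {f : ℕ → ℝ} (hf : ∀ i, 0 ≤ f i) {N : ℕ} (hN : 1 ≤ N) {A : ℝ} {i : ℕ}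
    (hi : Real.exp (Real.log N + Real.log (|A| + 1)) ≤ f i) {x : Fin N → ℕ} {i0 : Fin N} (hx : x i0 = i) :
    A ≤ avg f x := by
  have hN0 : (0 : ℝ) < N := by exact_mod_cast hN
  unfold avg
  rw [le_div_iff₀ hN0]
  have h1 : f (x i0) ≤ ∑ j, f (x j) :=
    Finset.single_le_sum (f := fun j => f (x j)) (fun j _ => hf _) (Finset.mem_univ i0)
  rw [hx] at h1
  rw [Real.exp_add, Real.exp_log hN0, Real.exp_log (by positivity)] at hi
  have h4 : A * N ≤ (|A| + 1) * N := mul_le_mul_of_nonneg_right (by linarith [le_abs_self A]) hN0.le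
  linarith

/-- **the price of a deviation** -/
theorem price {ν : Measure ℕ} [IsProbabilityMeasure ν] {f : ℕ → ℝ} {L : ℝ} (hM : Mom ν f L) {ε : ℝ} (hε : 0 < ε)
    (A : ℝ) {η : ℝ} (hη : 0 < η) : ∀ᶠ N : ℕ in atTop,
    ((prodN ν N).real {x | ε < |avg f x - 1|} ≤ Real.exp (-((1 - η) * (Real.log N ^ 2 / L))) ∧
      Real.exp (-((1 + η) * (Real.log N ^ 2 / L))) ≤ (prodN ν N).real {x | A ≤ avg f x}) ∧
    (∀ ρ : Measure (Fin N → ℕ), IsProbabilityMeasure ρ →
      ENNReal.ofReal ((ρ.real {x | ε < |avg f x - 1|} - η) * (Real.log N ^ 2 / L)) ≤ klDiv ρ (prodN ν N)) ∧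
    ∀ q : ℝ, 0 ≤ q → q ≤ 1 → ∃ ρ : Measure (Fin N → ℕ), IsProbabilityMeasure ρ ∧
      klDiv ρ (prodN ν N) ≤ ENNReal.ofReal ((q + η) * (Real.log N ^ 2 / L)) ∧ q ≤ ρ.real {x | A ≤ avg f x} := by
  have hL := hM.L_pos
  have hη2 : 0 < min (η / 2) 1 := lt_min (by linarith) one_pos
  have A1 := model_dev hM hε hη2 (min_le_right _ _)
  have A2 := cost_le hM (Real.log (|A| + 1)) hη
  have A3 := log_tendsto.eventually (lin_le_sq (A := 0) (B := 1) (c := η / 2 / L) (by positivity))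
  filter_upwards [A1, A2, A3, eventually_ge_atTop 1] with N a1 a2 a3 hN
  have hmp := prodN_prob ν N
  have hu0 : 0 ≤ Real.log N ^ 2 / L := by positivity
  obtain ⟨i, hi1, hi2, hi3⟩ := a2
  set i0 : Fin N := ⟨0, hN⟩ with hi0
  set B : Set (Fin N → ℕ) := {x | x i0 = i} with hB
  have hBν : (prodN ν N).real B = ν.real {i} := first_real i0 i
  have hBsub : B ⊆ {x | A ≤ avg f x} := fun x hx => avg_ge hM.nonneg hN hi1 hx
  have h1 : (prodN ν N).real {x | ε < |avg f x - 1|} ≤ Real.exp (-((1 - min (η / 2) 1) * (Real.log N ^ 2 / L))) :=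
    (measureReal_mono (dev_sub hN ε)).trans a1
  refine ⟨⟨h1.trans (Real.exp_le_exp.2 (neg_le_neg ?_)), ?_⟩, ?_, ?_⟩
  · exact mul_le_mul_of_nonneg_right (by linarith [min_le_left (η / 2) 1]) hu0
  · refine le_trans ?_ (measureReal_mono hBsub)
    rw [hBν, ← Real.le_log_iff_exp_le hi2]
    rw [one_div, Real.log_inv] at hi3
    linarith
  · intro ρ hρ
    refine (ENNReal.ofReal_le_ofReal ?_).trans (ent_event ρ (prodN ν N) (meas _) h1)
    set t := ρ.real {x | ε < |avg f x - 1|} with ht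
    have ht0 : 0 ≤ t := measureReal_nonneg
    have ht1 : t ≤ 1 := measureReal_le_one
    have h2 : 1 ≤ η / 2 * (Real.log N ^ 2 / L) := by
      calc (1 : ℝ) ≤ η / 2 / L * Real.log N ^ 2 := by linarith
        _ = _ := by ring
    have h3 : min (η / 2) 1 * ((Real.log N ^ 2 / L) * t) ≤ η / 2 * (Real.log N ^ 2 / L) := by
      calc min (η / 2) 1 * ((Real.log N ^ 2 / L) * t) ≤ η / 2 * ((Real.log N ^ 2 / L) * 1) :=
            mul_le_mul (min_le_left _ _) (mul_le_mul_of_nonneg_left ht1 hu0) (mul_nonneg hu0 ht0) (by linarith)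
        _ = _ := by ring
    nlinarith
  · intro q hq0 hq1
    have hpos : 0 < (prodN ν N).real B := by rw [hBν]; exact hi2
    refine ⟨mix (prodN ν N) B q, mix_prob _ (meas _) hpos hq0 hq1, ?_, mix_ge _ (meas _) hpos hq0 hq1 (meas _) hBsub⟩
    refine (mix_kl _ (meas _) hpos hq0 hq1).trans (ENNReal.ofReal_le_ofReal ?_)
    rw [hBν]
    calc q * Real.log (1 / ν.real {i}) ≤ q * ((1 + η) * (Real.log N ^ 2 / L)) := mul_le_mul_of_nonneg_left hi3 hq0
      _ ≤ (q + η) * (Real.log N ^ 2 / L) := by nlinarith [mul_nonneg hη.le hu0]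

/-! ### infinite sequences -/

/-- relative entropy of the law of the block number `k` with respect to independent variables of law `ν` -/
def relEntropy (ν : Measure ℕ) {Ω : Type} [MeasurableSpace Ω] (μ : Measure Ω) (g : ℕ → Ω → ℕ) (k : ℕ) : ℝ≥0∞ :=
  klDiv (μ.map (block g k)) (prodN ν (2 ^ k))

theorem ae_good {ν : Measure ℕ} [IsProbabilityMeasure ν] {Ω : Type} [MeasurableSpace Ω] {μ : Measure Ω}
    [IsProbabilityMeasure μ] {g : ℕ → Ω → ℕ} (hg : ∀ n, Measurable (g n)) {d : ℕ → ℝ} (hd : ∀ k, 0 ≤ d k)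
    (hD : ∀ᶠ k in atTop, relEntropy ν μ g k ≤ ENNReal.ofReal (d k)) (E : ∀ k, Set (Fin (2 ^ k) → ℕ)) {u : ℕ → ℝ}
    (hu : ∀ᶠ k in atTop, 0 < u k ∧ (prodN ν (2 ^ k)).real (E k) ≤ Real.exp (-u k))
    (hs : Summable fun k => (d k + 1) / u k) : ∀ᵐ ω ∂μ, ∀ᶠ k in atTop, block g k ω ∉ E k := by
  have hP : ∀ᶠ k in atTop, μ.real {ω | block g k ω ∈ E k} ≤ (d k + 1) / u k := by
    filter_upwards [hD, hu] with k h1 h2
    have hmp := prodN_prob ν (2 ^ k)
    have hb := block_meas hg k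
    have hρ : IsProbabilityMeasure (μ.map (block g k)) := Measure.isProbabilityMeasure_map hb.aemeasurable
    have h3 := ent_event' (μ.map (block g k)) (prodN ν (2 ^ k)) (meas (E k)) h2.2 (hd k) h1
    rw [map_measureReal_apply hb (meas (E k))] at h3
    rw [le_div_iff₀ h2.1, mul_comm]
    exact h3
  have hs2 : Summable fun k => μ.real {ω | block g k ω ∈ E k} := by
    obtain ⟨K, hK⟩ := eventually_atTop.1 hP
    rw [← summable_nat_add_iff K]
    exact Summable.of_nonneg_of_le (fun k => measureReal_nonneg) (fun k => hK (k + K) (Nat.le_add_left _ _))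
      ((summable_nat_add_iff K).2 hs)
  have hfin : ∑' k, μ {ω | block g k ω ∈ E k} ≠ ⊤ := by
    have h4 : ∀ k, μ {ω | block g k ω ∈ E k} = ENNReal.ofReal (μ.real {ω | block g k ω ∈ E k}) := fun k =>
      (ofReal_measureReal (measure_ne_top _ _)).symm
    simp only [h4]
    rw [← ENNReal.ofReal_tsum_of_nonneg (fun k => measureReal_nonneg) hs2]
    exact ENNReal.ofReal_ne_top
  exact ae_eventually_notMem hfin

/-- the mean value for summable budgets -/
theorem mean_of_summable {ν : Measure ℕ} [IsProbabilityMeasure ν] {f : ℕ → ℝ} {L : ℝ} (hM : Mom ν f L)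
    {d : ℕ → ℝ} (hd : ∀ k, 0 ≤ d k) (hs : Summable fun k : ℕ => d k / (k : ℝ) ^ 2)
    {Ω : Type} [MeasurableSpace Ω] {μ : Measure Ω} [IsProbabilityMeasure μ] {g : ℕ → Ω → ℕ}
    (hg : ∀ n, Measurable (g n)) (hD : ∀ᶠ k in atTop, relEntropy ν μ g k ≤ ENNReal.ofReal (d k)) :
    ∀ᵐ ω ∂μ, Tendsto (fun N => mean f (fun n => g n ω) N) atTop (𝓝 1) := by
  have hL := hM.L_pos
  have key : ∀ᵐ ω ∂μ, ∀ e : ℕ, ∀ᶠ k in atTop, block g k ω ∉ Dv f 1 (2 ^ k) (1 / ((e : ℝ) + 1)) := by
    rw [ae_all_iff]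
    intro e
    have h1 := model_dev hM (ε := 1 / ((e : ℝ) + 1)) (by positivity) (η := 1 / 2) (by norm_num) (by norm_num)
    have h2 := (tendsto_pow_atTop_atTop_of_one_lt (by norm_num : 1 < 2)).eventually h1
    have hl2 : 0 < Real.log 2 := Real.log_pos (by norm_num)
    refine ae_good hg hd hD (fun k => Dv f 1 (2 ^ k) (1 / ((e : ℝ) + 1)))
      (u := fun k => (1 - 1 / 2) * (Real.log ((2 ^ k : ℕ) : ℝ) ^ 2 / L)) ?_ ?_
    · filter_upwards [h2, eventually_ge_atTop 1] with k hk hk1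
      refine ⟨?_, hk⟩
      rw [log_two_pow]
      have : (0 : ℝ) < k := by exact_mod_cast hk1
      positivity
    · have h3 : Summable fun k : ℕ => (2 * L / Real.log 2 ^ 2) * (d k / (k : ℝ) ^ 2 + 1 / (k : ℝ) ^ 2) :=
        (hs.add (summable_sq 1)).mul_left _
      refine h3.congr fun k => ?_
      rw [log_two_pow]
      rcases Nat.eq_zero_or_pos k with rfl | hk
      · simp
      · have : (0 : ℝ) < k := by exact_mod_cast hk
        field_simp
        ring
  filter_upwards [key] with ω hω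
  exact mean_tendsto g _ 1 ω hω

/-- the indicator of `j` -/
def ind (j x : ℕ) : ℝ := if x = j then 1 else 0

theorem ind_nonneg (j x : ℕ) : 0 ≤ ind j x := by unfold ind; split_ifs <;> norm_num

theorem ind_le (j x : ℕ) : ind j x ≤ 1 := by unfold ind; split_ifs <;> norm_num

theorem ind_mean (ν : Measure ℕ) (j : ℕ) : ∫ r, ind j r ∂ν = ν.real {j} := by
  have e : ind j = ({j} : Set ℕ).indicator (fun _ => (1 : ℝ)) := by
    funext x
    unfold ind
    by_cases h : x = j
    · simp [h]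
    · simp [h]
  rw [e, integral_indicator MeasurableSet.of_discrete, setIntegral_const, smul_eq_mul, mul_one]

/-- the law for summable budgets -/
theorem law_of_summable {ν : Measure ℕ} [IsProbabilityMeasure ν] {d : ℕ → ℝ} (hd : ∀ k, 0 ≤ d k)
    (hs : Summable fun k : ℕ => d k / (2 : ℝ) ^ k)
    {Ω : Type} [MeasurableSpace Ω] {μ : Measure Ω} [IsProbabilityMeasure μ] {g : ℕ → Ω → ℕ}
    (hg : ∀ n, Measurable (g n)) (hD : ∀ᶠ k in atTop, relEntropy ν μ g k ≤ ENNReal.ofReal (d k)) :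
    ∀ᵐ ω ∂μ, ∀ j : ℕ, Tendsto (fun N => mean (ind j) (fun n => g n ω) N) atTop (𝓝 (ν.real {j})) := by
  rw [ae_all_iff]
  intro j
  have key : ∀ᵐ ω ∂μ, ∀ e : ℕ, ∀ᶠ k in atTop,
      block g k ω ∉ Dv (ind j) (ν.real {j}) (2 ^ k) (1 / ((e : ℝ) + 1)) := by
    rw [ae_all_iff]
    intro e
    obtain ⟨c, hc, h1⟩ := dev_bdd (ν := ν) (ind_nonneg j) (ind_le j) (ε := 1 / ((e : ℝ) + 1)) (by positivity)
    rw [ind_mean] at h1
    have h2 := (tendsto_pow_atTop_atTop_of_one_lt (by norm_num : 1 < 2)).eventually h1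
    refine ae_good hg hd hD (fun k => Dv (ind j) (ν.real {j}) (2 ^ k) (1 / ((e : ℝ) + 1)))
      (u := fun k => c * ((2 ^ k : ℕ) : ℝ)) ?_ ?_
    · filter_upwards [h2] with k hk
      exact ⟨by positivity, hk⟩
    · have h4 : Summable fun k : ℕ => 1 / (2 : ℝ) ^ k := by
        have := summable_geometric_of_lt_one (by norm_num : (0 : ℝ) ≤ 1 / 2) (by norm_num)
        refine this.congr fun k => ?_
        rw [one_div_pow]
      refine ((hs.add h4).mul_left (1 / c)).congr fun k => ?_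
      push_cast
      field_simp
  filter_upwards [key] with ω hω
  exact mean_tendsto g _ _ ω hω

/-- random sequences with prescribed exceptional blocks -/
theorem build {ν : Measure ℕ} [IsProbabilityMeasure ν] {d : ℕ → ℝ} (hd : ∀ k, 0 ≤ d k) (E : ∀ k, Set (Fin (2 ^ k) → ℕ))
    (c : ℕ → ℝ) (hc : ∀ k, 0 ≤ c k) (hE : ∀ k, 0 < (prodN ν (2 ^ k)).real (E k))
    (hcost : ∀ k, Real.log (1 / (prodN ν (2 ^ k)).real (E k)) ≤ c k) (hs : ¬ Summable fun k => d k / c k) :
    ∃ (Ω : Type) (_ : MeasurableSpace Ω) (μ : Measure Ω) (_ : IsProbabilityMeasure μ) (g : ℕ → Ω → ℕ),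
      (∀ n, Measurable (g n)) ∧ (∀ k, relEntropy ν μ g k ≤ ENNReal.ofReal (d k)) ∧
      ∀ᵐ ω ∂μ, ∃ᶠ k in atTop, block g k ω ∈ E k := by
  set q : ℕ → ℝ := fun k => min 1 (d k / c k) with hq
  have hq0 : ∀ k, 0 ≤ q k := fun k => le_min zero_le_one (div_nonneg (hd k) (hc k))
  have hq1 : ∀ k, q k ≤ 1 := fun k => min_le_left _ _
  have hmp : ∀ N, IsProbabilityMeasure (prodN ν N) := prodN_prob ν
  set ρ : ∀ k : ℕ, Measure (Fin (2 ^ k) → ℕ) := fun k => mix (prodN ν (2 ^ k)) (E k) (q k) with hρd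
  have hρ : ∀ k, IsProbabilityMeasure (ρ k) := fun k => mix_prob _ (meas _) (hE k) (hq0 k) (hq1 k)
  have hns : ¬ Summable fun k => (ρ k).real (E k) := by
    intro h
    exact min_not_summable (fun k => div_nonneg (hd k) (hc k)) hs (Summable.of_nonneg_of_le hq0
      (fun k => mix_ge _ (meas _) (hE k) (hq0 k) (hq1 k) (meas _) le_rfl) h)
  obtain ⟨Ω, mΩ, μ, hμ, g, hg, hmap, hae⟩ := blocks ρ hρ E hns
  refine ⟨Ω, mΩ, μ, hμ, g, hg, fun k => ?_, hae⟩
  unfold relEntropy
  rw [hmap k]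
  refine (mix_kl _ (meas _) (hE k) (hq0 k) (hq1 k)).trans (ENNReal.ofReal_le_ofReal ?_)
  rcases (hc k).eq_or_lt with h0 | h0
  · have h1 : q k = 0 := by simp [hq, ← h0]
    rw [h1, zero_mul]
    exact hd k
  · calc q k * Real.log (1 / (prodN ν (2 ^ k)).real (E k)) ≤ q k * c k :=
          mul_le_mul_of_nonneg_left (hcost k) (hq0 k)
      _ ≤ d k / c k * c k := mul_le_mul_of_nonneg_right (min_le_right _ _) h0.le
      _ = d k := by field_simp

end

end Pool.Agent.Q197.MG
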