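import Pool.Agent.Q197.MG.Gen

/-!
# Project MG, module Enum: the Cohen-Lenstra measure of an odd prime `p` is finite and its moments are one
-/

set_option autoImplicit false

open Filter
open scoped ENNReal Classical Topology

namespace Pool.Agent.Q197.MG

noncomputable section

/-- `G 0, G 1, …` are the finite abelian `p`-groups up to isomorphism -/
structure IsEnum (p : ℕ) (G : ℕ → Type) [∀ i, AddCommGroup (G i)] : Prop where
  isP : ∀ i, IsP p (G i)
  inj : ∀ i j, Nonempty (G i ≃+ G j) → i = j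
  surj : ∀ (A : Type) [AddCommGroup A], IsP p A → ∃ i, Nonempty (A ≃+ G i)

theorem nsur_congr {A B : Type} [AddCommGroup A] [AddCommGroup B] (e : A ≃+ B) (H : Type) [AddCommGroup H] :
    nsur A H = nsur B H := by
  unfold nsur
  exact Nat.card_congr
    { toFun := fun f => ⟨f.1.comp (e.symm : B →+ A), f.2.comp e.symm.surjective⟩
      invFun := fun f => ⟨f.1.comp (e : A →+ B), f.2.comp e.surjective⟩
      left_inv := fun f => by
        apply Subtype.ext
        exact AddMonoidHom.ext fun x => congrArg f.1 (e.symm_apply_apply x)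
      right_inv := fun f => by
        apply Subtype.ext
        exact AddMonoidHom.ext fun x => congrArg f.1 (e.apply_symm_apply x) }

theorem nhom_congr {A B : Type} [AddCommGroup A] [AddCommGroup B] (e : A ≃+ B) (H : Type) [AddCommGroup H] :
    nhom A H = nhom B H := by
  unfold nhom
  exact Nat.card_congr
    { toFun := fun f => f.comp (e.symm : B →+ A)
      invFun := fun f => f.comp (e : A →+ B)
      left_inv := fun f => AddMonoidHom.ext fun x => congrArg f (e.symm_apply_apply x)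
      right_inv := fun f => AddMonoidHom.ext fun x => congrArg f (e.apply_symm_apply x) }

variable {p : ℕ} [hp : Fact p.Prime]

/-! ### sums over the groups and sums over the sublattices -/

section

variable {G : ℕ → Type} [∀ i, AddCommGroup (G i)]

theorem star (hG : IsEnum p G) (n : ℕ) (h : ℕ → ℝ≥0∞) :
    ∑' i, (nsur (Fn n) (G i) : ℝ≥0∞) * (naut (G i) : ℝ≥0∞)⁻¹ * h i =
      ∑' L : AddSubgroup (Fn n), ∑' i, if Nonempty ((Fn n ⧸ L) ≃+ G i) then h i else 0 := by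
  rw [ENNReal.tsum_comm]
  refine tsum_congr fun i => ?_
  have hf := (hG.isP i).finite
  have ha : (naut (G i) : ℝ≥0∞) ≠ 0 := by exact_mod_cast (naut_pos (G i)).ne'
  rw [sj_sum, ← ENNReal.tsum_mul_right, ← ENNReal.tsum_mul_right]
  refine tsum_congr fun L => ?_
  split_ifs with hL
  · obtain ⟨e⟩ := hL
    rw [card_equiv _ _ e, ENNReal.mul_inv_cancel ha (ENNReal.natCast_ne_top _), one_mul]
  · rw [not_nonempty_iff] at hL
    rw [Nat.card_of_isEmpty]
    simp

theorem index_eq {n : ℕ} {L : AddSubgroup (Fn n)} {A : Type} [AddCommGroup A] (e : (Fn n ⧸ L) ≃+ A) :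
    L.index = Nat.card A := Nat.card_congr e.toEquiv

theorem gsum (hG : IsEnum p G) (n : ℕ) {g : ℕ → ℝ≥0∞} (hg : ∀ m, (¬ ∃ k, m = p ^ k) → g m = 0)
    (s : ℕ → ℝ≥0∞) (sL : AddSubgroup (Fn n) → ℝ≥0∞)
    (hs : ∀ L i, Nonempty ((Fn n ⧸ L) ≃+ G i) → s i = sL L) :
    ∑' i, (nsur (Fn n) (G i) : ℝ≥0∞) * (naut (G i) : ℝ≥0∞)⁻¹ * (g (Nat.card (G i)) * s i) =
      ∑' L : AddSubgroup (Fn n), g L.index * sL L := by
  rw [star hG]
  refine tsum_congr fun L => ?_
  by_cases hL : ∃ k, L.index = p ^ k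
  · obtain ⟨i, ⟨e⟩⟩ := hG.surj (Fn n ⧸ L) hL
    rw [tsum_eq_single i]
    · rw [if_pos ⟨e⟩, hs L i ⟨e⟩, index_eq e]
    · intro j hj
      rw [if_neg]
      rintro ⟨e'⟩
      exact hj (hG.inj j i ⟨e'.symm.trans e⟩)
  · rw [hg _ hL, zero_mul]
    refine (tsum_congr fun i => ?_).trans tsum_zero
    rw [if_neg]
    rintro ⟨e⟩
    apply hL
    obtain ⟨k, hk⟩ := hG.isP i
    exact ⟨k, by rw [index_eq e, hk]⟩

end

/-- `m ^ (-n)` for the powers `m` of `p` -/
def gn (p n m : ℕ) : ℝ≥0∞ := if ∃ k, m = p ^ k then ((m : ℝ≥0∞) ^ n)⁻¹ else 0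

/-- `m ^ (-n)` for the powers `m` of `p` with exponent at most `k` -/
def gt (p n k m : ℕ) : ℝ≥0∞ := if ∃ j ≤ k, m = p ^ j then ((m : ℝ≥0∞) ^ n)⁻¹ else 0

/-- the zeta value -/
def zz (p n : ℕ) : ℝ≥0∞ := ∑' K : AddSubgroup (Fn n), gn p n K.index

/-- the truncated zeta value -/
def zt (p n k : ℕ) : ℝ≥0∞ := ∑' K : AddSubgroup (Fn n), gt p n k K.index

theorem gn_mul (n h m : ℕ) : gn p n (p ^ h * m) = (((p ^ h : ℕ) : ℝ≥0∞) ^ n)⁻¹ * gn p n m := by
  unfold gn
  have hiff : (∃ k, p ^ h * m = p ^ k) ↔ ∃ k, m = p ^ k := by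
    constructor
    · rintro ⟨k, hk⟩
      obtain ⟨j, _, hj⟩ := (Nat.dvd_prime_pow hp.out).1 (show m ∣ p ^ k from ⟨p ^ h, by rw [← hk, mul_comm]⟩)
      exact ⟨j, hj⟩
    · rintro ⟨k, rfl⟩
      exact ⟨h + k, (pow_add p h k).symm⟩
  by_cases hm : ∃ k, m = p ^ k
  · rw [if_pos hm, if_pos (hiff.2 hm), Nat.cast_mul, mul_pow, ENNReal.mul_inv]
    · left
      exact pow_ne_zero _ (by exact_mod_cast (pow_pos hp.out.pos h).ne')
    · left
      exact ENNReal.pow_ne_top (ENNReal.natCast_ne_top _)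
  · rw [if_neg hm, if_neg (fun h => hm (hiff.1 h)), mul_zero]

theorem gt_mul (n k m : ℕ) : gt p n (k + 1) (p * m) = ((p : ℝ≥0∞) ^ n)⁻¹ * gt p n k m := by
  unfold gt
  have hiff : (∃ j ≤ k + 1, p * m = p ^ j) ↔ ∃ j ≤ k, m = p ^ j := by
    constructor
    · rintro ⟨j, hj, hm⟩
      rcases Nat.eq_zero_or_pos j with rfl | hj0
      · rw [pow_zero] at hm
        exact absurd (Nat.eq_one_of_mul_eq_one_right hm) hp.out.one_lt.ne'
      · refine ⟨j - 1, by omega, ?_⟩
        obtain ⟨i, rfl⟩ : ∃ i, j = i + 1 := ⟨j - 1, by omega⟩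
        rw [pow_succ'] at hm
        exact Nat.eq_of_mul_eq_mul_left hp.out.pos hm
    · rintro ⟨j, hj, rfl⟩
      exact ⟨j + 1, by omega, (pow_succ' p j).symm⟩
  by_cases hm : ∃ j ≤ k, m = p ^ j
  · rw [if_pos hm, if_pos (hiff.2 hm), Nat.cast_mul, mul_pow, ENNReal.mul_inv]
    · left
      exact pow_ne_zero _ (by exact_mod_cast hp.out.pos.ne')
    · left
      exact ENNReal.pow_ne_top (ENNReal.natCast_ne_top _)
  · rw [if_neg hm, if_neg (fun h => hm (hiff.1 h)), mul_zero]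

theorem zt_zero (n : ℕ) : zt p n 0 = 1 := by
  unfold zt
  rw [tsum_eq_single ⊤]
  · unfold gt
    rw [AddSubgroup.index_top, if_pos ⟨0, le_rfl, (pow_zero p).symm⟩]
    simp
  · intro K hK
    unfold gt
    rw [if_neg]
    rintro ⟨j, hj, h⟩
    have : j = 0 := by omega
    rw [this, pow_zero, AddSubgroup.index_eq_one] at h
    exact hK h

theorem zt_succ (n k : ℕ) : ((p - 1 : ℕ) : ℝ≥0∞) * zt p n (k + 1) ≤ ((p - 1 : ℕ) : ℝ≥0∞) + zt p n k := by
  have h1 : ((p - 1 : ℕ) : ℝ≥0∞) * zt p n (k + 1) ≤ ∑' L : AddSubgroup (Fn n),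
      ((if L = ⊤ then ((p - 1 : ℕ) : ℝ≥0∞) else 0) + gt p n (k + 1) L.index * nsur (Fn n ⧸ L) (ZMod p)) := by
    unfold zt
    rw [← ENNReal.tsum_mul_left]
    refine ENNReal.tsum_le_tsum fun L => ?_
    by_cases hL : L = ⊤
    · rw [if_pos hL, hL, AddSubgroup.index_top]
      refine le_trans ?_ le_self_add
      have : gt p n (k + 1) 1 = 1 := by
        unfold gt
        rw [if_pos ⟨0, by omega, (pow_zero p).symm⟩]
        simp
      rw [this, mul_one]
    · rw [if_neg hL, zero_add]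
      by_cases hi : ∃ j ≤ k + 1, L.index = p ^ j
      · obtain ⟨j, _, hj⟩ := hi
        have hP : IsP p (Fn n ⧸ L) := ⟨j, hj⟩
        have hfin := hP.finite
        have hc : Nat.card (Fn n ⧸ L) ≠ 1 := fun h => hL (AddSubgroup.index_eq_one.1 h)
        have h2 := rk_pos hP hc
        have h3 := nsur_zmod (p := p) (Fn n ⧸ L)
        have h4 : p ≤ p ^ rk p (Fn n ⧸ L) := by
          calc p = p ^ 1 := (pow_one p).symm
            _ ≤ _ := Nat.pow_le_pow_right hp.out.pos h2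
        rw [mul_comm]
        refine mul_le_mul_right ?_ _
        have h5 : p - 1 ≤ nsur (Fn n ⧸ L) (ZMod p) := by omega
        exact_mod_cast h5
      · unfold gt
        rw [if_neg hi]
        simp
  refine h1.trans ?_
  rw [ENNReal.tsum_add, tsum_ite_eq]
  refine add_le_add le_rfl ?_
  rw [transfer]
  simp only [Nat.card_zmod, gt_mul]
  rw [ENNReal.tsum_mul_left]
  have h6 : (nsur (Fn n) (ZMod p) : ℝ≥0∞) ≤ (p : ℝ≥0∞) ^ n := by
    have h7 := nsur_le (Fn n) (ZMod p)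
    rw [nhom_Fn, Nat.card_zmod] at h7
    exact_mod_cast h7
  calc (nsur (Fn n) (ZMod p) : ℝ≥0∞) * (((p : ℝ≥0∞) ^ n)⁻¹ * zt p n k)
      ≤ (p : ℝ≥0∞) ^ n * (((p : ℝ≥0∞) ^ n)⁻¹ * zt p n k) := mul_le_mul_left h6 _
    _ = zt p n k := by
        rw [← mul_assoc, ENNReal.mul_inv_cancel, one_mul]
        · exact pow_ne_zero _ (by exact_mod_cast hp.out.pos.ne')
        · exact ENNReal.pow_ne_top (ENNReal.natCast_ne_top _)

theorem zt_le (h3 : 3 ≤ p) (n k : ℕ) : zt p n k ≤ 2 := by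
  induction k with
  | zero => rw [zt_zero]; norm_num
  | succ k ih =>
    have h1 := (zt_succ (p := p) n k).trans (add_le_add le_rfl ih)
    have h2 : ((p - 1 : ℕ) : ℝ≥0∞) + 2 ≤ ((p - 1 : ℕ) : ℝ≥0∞) * 2 := by
      have : (p - 1) + 2 ≤ (p - 1) * 2 := by omega
      exact_mod_cast this
    have h4 := h1.trans h2
    have h5 : ((p - 1 : ℕ) : ℝ≥0∞) ≠ 0 := by
      have : p - 1 ≠ 0 := by omega
      exact_mod_cast this
    exact (ENNReal.mul_le_mul_iff_right h5 (ENNReal.natCast_ne_top _)).1 h4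

theorem zz_le (h3 : 3 ≤ p) (n : ℕ) : zz p n ≤ 2 := by
  unfold zz
  rw [ENNReal.tsum_eq_iSup_sum]
  refine iSup_le fun T => ?_
  obtain ⟨k, hk⟩ : ∃ k : ℕ, ∀ K ∈ T, ∀ j, K.index = p ^ j → j ≤ k := by
    refine ⟨T.sup fun K => K.index, fun K hK j hj => ?_⟩
    have h1 : K.index ≤ T.sup fun K => K.index := Finset.le_sup (f := fun K : AddSubgroup (Fn n) => K.index) hK
    have h2 : j < p ^ j := Nat.lt_pow_self hp.out.one_lt
    omega
  calc ∑ K ∈ T, gn p n K.index ≤ ∑ K ∈ T, gt p n k K.index := by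
        refine Finset.sum_le_sum fun K hK => ?_
        unfold gn gt
        split_ifs with h1 h2
        · exact le_rfl
        · exfalso
          obtain ⟨j, hj⟩ := h1
          exact h2 ⟨j, hk K hK j hj, hj⟩
        · exact zero_le
        · exact zero_le
    _ ≤ zt p n k := ENNReal.sum_le_tsum T
    _ ≤ 2 := zt_le h3 n k

end

end Pool.Agent.Q197.MG
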