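import Pool.Agent.Q197.MG.Many

/-!
# Project MG, module Exi: the finite abelian `p`-groups can be enumerated
-/

set_option autoImplicit false

open scoped Classical DirectSum

namespace Pool.Agent.Q197.MG

noncomputable section

variable {p : ℕ} [hp : Fact p.Prime]

/-- the group `Z/p^(c 0) x Z/p^(c 1) x ...` -/
abbrev LG (p : ℕ) (c : Σ m : ℕ, (Fin m → ℕ)) : Type := (i : Fin c.1) → ZMod (p ^ c.2 i)

/-- isomorphism of the groups of two codes -/
def lset (p : ℕ) : Setoid (Σ m : ℕ, (Fin m → ℕ)) where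
  r c c' := Nonempty (LG p c ≃+ LG p c')
  iseqv := ⟨fun _ => ⟨AddEquiv.refl _⟩, fun ⟨e⟩ => ⟨e.symm⟩, fun ⟨e⟩ ⟨f⟩ => ⟨e.trans f⟩⟩

theorem card_LG (c : Σ m : ℕ, (Fin m → ℕ)) : ∃ k, Nat.card (LG p c) = p ^ k := by
  refine ⟨∑ i : Fin c.1, c.2 i, ?_⟩
  rw [Nat.card_pi, ← Finset.prod_pow_eq_pow_sum]
  exact Finset.prod_congr rfl fun i _ => Nat.card_zmod _

theorem card_LG_single (a : ℕ) : Nat.card (LG p ⟨1, fun _ => a⟩) = p ^ a := by
  rw [Nat.card_pi]
  simp

instance inf_quot : Infinite (Quotient (lset p)) := by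
  refine Infinite.of_injective (fun a : ℕ => Quotient.mk (lset p) ⟨1, fun _ => a⟩) fun a b h => ?_
  obtain ⟨e⟩ := Quotient.exact h
  have h1 := Nat.card_congr e.toEquiv
  rw [card_LG_single, card_LG_single] at h1
  exact Nat.pow_right_injective hp.out.two_le h1

theorem structure_thm (A : Type) [AddCommGroup A] (hA : IsP p A) : ∃ c, Nonempty (A ≃+ LG p c) := by
  have := hA.finite
  obtain ⟨k, hk⟩ := hA
  obtain ⟨ι, hι, n, hn, ⟨e⟩⟩ := AddCommGroup.equiv_directSum_zmod_of_finite' A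
  have e2 : A ≃+ ((i : ι) → ZMod (n i)) := e.trans (DirectSum.addEquivProd _)
  have hcard : ∏ i, n i = p ^ k := by
    rw [← hk, Nat.card_congr e2.toEquiv, Nat.card_pi]
    exact Finset.prod_congr rfl fun i _ => (Nat.card_zmod _).symm
  have hdiv : ∀ i, ∃ a, n i = p ^ a := fun i => by
    have h1 : n i ∣ p ^ k := hcard ▸ Finset.dvd_prod_of_mem n (Finset.mem_univ i)
    obtain ⟨a, _, ha⟩ := (Nat.dvd_prime_pow hp.out).1 h1
    exact ⟨a, ha⟩
  choose a ha using hdiv
  obtain rfl : n = fun i => p ^ a i := funext ha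
  set f := Fintype.equivFin ι
  exact ⟨⟨Fintype.card ι, fun j => a (f.symm j)⟩,
    ⟨e2.trans (LinearEquiv.piCongrLeft' ℤ (fun i => ZMod (p ^ a i)) f).toAddEquiv⟩⟩

/-- there is an enumeration of the finite abelian `p`-groups up to isomorphism -/
theorem exists_enum : ∃ (G : ℕ → Type) (_ : ∀ i, AddCommGroup (G i)), IsEnum p G := by
  obtain ⟨e⟩ : Nonempty (ℕ ≃ Quotient (lset p)) := nonempty_equiv_of_countable
  refine ⟨fun i => LG p (e i).out, fun i => inferInstance, fun i => card_LG _, fun i j h => ?_, fun A _ hA => ?_⟩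
  · apply e.injective
    rw [← Quotient.out_eq (e i), ← Quotient.out_eq (e j)]
    exact Quotient.sound h
  · obtain ⟨c, ⟨f⟩⟩ := structure_thm A hA
    obtain ⟨g⟩ : Nonempty (LG p (e (e.symm (Quotient.mk _ c))).out ≃+ LG p c) :=
      Quotient.exact ((Quotient.out_eq _).trans (e.apply_symm_apply _))
    exact ⟨e.symm (Quotient.mk _ c), ⟨f.trans g.symm⟩⟩

end

end Pool.Agent.Q197.MG
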