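import Pool.Agent.Q197.MG.Exi

/-!
# Project MG, module Fin: the exact entropy budgets of all moments and of the Cohen-Lenstra law
-/

set_option autoImplicit false

open MeasureTheory ProbabilityTheory Filter Asymptotics InformationTheory
open Pool.Agent.Q197.ML (block mean)
open scoped ENNReal Classical Topology

namespace Pool.Agent.Q197.MG

noncomputable section

/-- the average number of surjective homomorphisms from `G (x n)`, `1 ≤ n ≤ N`, onto `H` -/
def avSur (G : ℕ → Type) [∀ i, AddCommGroup (G i)] (H : Type) [AddCommGroup H] (x : ℕ → ℕ) (N : ℕ) : ℝ :=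
  (∑ n ∈ Finset.Icc 1 N, (nsur (G (x n)) H : ℝ)) / N

/-- the proportion of the `n` with `1 ≤ n ≤ N` such that `G (x n)` is isomorphic to `H` -/
def share (G : ℕ → Type) [∀ i, AddCommGroup (G i)] (H : Type) [AddCommGroup H] (x : ℕ → ℕ) (N : ℕ) : ℝ :=
  (((Finset.Icc 1 N).filter fun n => Nonempty (G (x n) ≃+ H)).card : ℝ) / N

variable {p : ℕ} [hp : Fact p.Prime] (h3 : 3 ≤ p) {G : ℕ → Type} [∀ i, AddCommGroup (G i)] (hG : IsEnum p G)

theorem avSur_eq (H : Type) [AddCommGroup H] (x : ℕ → ℕ) :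
    avSur G H x = fun N => mean (fun i => (nsur (G i) H : ℝ)) x N := rfl

theorem avSur_congr {H K : Type} [AddCommGroup H] [AddCommGroup K] (e : H ≃+ K) (x : ℕ → ℕ) :
    avSur G H x = avSur G K x := by
  funext N
  unfold avSur
  congr 1
  exact Finset.sum_congr rfl fun n _ => by rw [nsur_congr_right _ e]

include hG in
theorem share_eq {H : Type} [AddCommGroup H] {j : ℕ} (e : H ≃+ G j) (x : ℕ → ℕ) :
    share G H x = fun N => mean (ind j) x N := by
  funext N
  unfold share mean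
  congr 1
  rw [Finset.card_filter]
  push_cast
  refine Finset.sum_congr rfl fun n _ => ?_
  have h : Nonempty (G (x n) ≃+ H) ↔ x n = j := by
    constructor
    · rintro ⟨f⟩
      exact hG.inj _ _ ⟨f.trans e⟩
    · rintro h
      rw [h]
      exact ⟨e.symm⟩
  unfold ind
  simp only [h]

theorem nsur_triv {A H : Type} [AddCommGroup A] [AddCommGroup H] (h1 : Nat.card H = 1) : nsur A H = 1 := by
  obtain ⟨h2, h4⟩ := Nat.card_eq_one_iff_unique.1 h1
  unfold nsur
  rw [Nat.card_eq_one_iff_unique]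
  refine ⟨⟨fun f g => Subtype.ext (AddMonoidHom.ext fun x => Subsingleton.elim _ _)⟩,
    ⟨⟨0, fun y => ⟨0, Subsingleton.elim _ _⟩⟩⟩⟩

include h3 hG in
/-- the value of the law -/
theorem law_value : ∃ c : ℝ, 0 < c ∧ ∀ (H : Type) [AddCommGroup H] (j : ℕ), Nonempty (H ≃+ G j) →
    (clG G).real {j} = c / naut H := by
  refine ⟨1 / ∑' j, W G j, one_div_pos.2 (zero_lt_one.trans_le (mass_ge h3 hG)), fun H _ j hj => ?_⟩
  obtain ⟨e⟩ := hj
  rw [clG_real h3 hG, naut_congr e]
  unfold nw W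
  ring

include h3 hG in
theorem atoms (j : ℕ) : 0 < (clG G).real {j} ∧ (clG G).real {j} < 1 := by
  have hcl := clG_prob h3 hG
  have hpos : ∀ i, 0 < (clG G).real {i} := fun i => by
    have h1 := nw_ge h3 hG i
    have := (hG.isP i).finite
    have h4 : (0 : ℝ) < naut (G i) := by exact_mod_cast naut_pos (G i)
    have h5 : (0 : ℝ) < W G i := by
      unfold W
      positivity
    rw [clG_real h3 hG]
    linarith
  refine ⟨hpos j, ?_⟩
  have hd : Disjoint ({j} : Set ℕ) {j + 1} := by simp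
  have h2 := measureReal_union (μ := clG G) hd (MeasurableSet.of_discrete : MeasurableSet ({j + 1} : Set ℕ))
  have h4 : (clG G).real ({j} ∪ {j + 1}) ≤ 1 := measureReal_le_one
  have h5 := hpos (j + 1)
  linarith

include h3 hG in
/-- **all moments for summable budgets** -/
theorem all_moments {d : ℕ → ℝ} (hd : ∀ k, 0 ≤ d k) (hs : Summable fun k : ℕ => d k / (k : ℝ) ^ 2)
    {Ω : Type} [MeasurableSpace Ω] {μ : Measure Ω} [IsProbabilityMeasure μ] {g : ℕ → Ω → ℕ}
    (hg : ∀ n, Measurable (g n)) (hD : ∀ᶠ k in atTop, relEntropy (clG G) μ g k ≤ ENNReal.ofReal (d k)) :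
    ∀ᵐ ω ∂μ, ∀ (H : Type) [AddCommGroup H], IsP p H → Tendsto (avSur G H fun n => g n ω) atTop (𝓝 1) := by
  have hcl := clG_prob h3 hG
  have key : ∀ᵐ ω ∂μ, ∀ j : ℕ, Nat.card (G j) ≠ 1 → Tendsto (avSur G (G j) fun n => g n ω) atTop (𝓝 1) := by
    rw [ae_all_iff]
    intro j
    by_cases h1 : Nat.card (G j) = 1
    · exact Eventually.of_forall fun ω h => absurd h1 h
    · filter_upwards [mean_of_summable (clG_mom h3 hG (G j) (hG.isP j) h1) hd hs hg hD] with ω hω _
      exact hω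
  filter_upwards [key] with ω hω H _ hH
  by_cases h1 : Nat.card H = 1
  · refine tendsto_const_nhds.congr' ?_
    filter_upwards [eventually_ge_atTop 1] with N hN
    unfold avSur
    have hN0 : (N : ℝ) ≠ 0 := by positivity
    simp only [nsur_triv h1, Nat.cast_one, Finset.sum_const, Nat.card_Icc, Nat.add_sub_cancel, nsmul_eq_mul, mul_one]
    rw [div_self hN0]
  · obtain ⟨j, ⟨e⟩⟩ := hG.surj H hH
    rw [avSur_congr e]
    exact hω j fun h => h1 (by rw [Nat.card_congr e.toEquiv, h])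

include h3 hG in
/-- **the law for summable budgets** -/
theorem all_law {c : ℝ} (hc : ∀ (H : Type) [AddCommGroup H] (j : ℕ), Nonempty (H ≃+ G j) → (clG G).real {j} = c / naut H)
    {d : ℕ → ℝ} (hd : ∀ k, 0 ≤ d k) (hs : Summable fun k : ℕ => d k / (2 : ℝ) ^ k)
    {Ω : Type} [MeasurableSpace Ω] {μ : Measure Ω} [IsProbabilityMeasure μ] {g : ℕ → Ω → ℕ}
    (hg : ∀ n, Measurable (g n)) (hD : ∀ᶠ k in atTop, relEntropy (clG G) μ g k ≤ ENNReal.ofReal (d k)) :
    ∀ᵐ ω ∂μ, ∀ (H : Type) [AddCommGroup H], IsP p H → Tendsto (share G H fun n => g n ω) atTop (𝓝 (c / naut H)) := by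
  have hcl := clG_prob h3 hG
  filter_upwards [law_of_summable hd hs hg hD] with ω hω H _ hH
  obtain ⟨j, ⟨e⟩⟩ := hG.surj H hH
  rw [share_eq hG e, ← hc H j ⟨e⟩]
  exact hω j

include h3 hG in
/-- **the law fails for budgets which are not summable** -/
theorem all_law_fails {c : ℝ}
    (hc : ∀ (H : Type) [AddCommGroup H] (j : ℕ), Nonempty (H ≃+ G j) → (clG G).real {j} = c / naut H)
    {d : ℕ → ℝ} (hd : ∀ k, 0 ≤ d k) (hs : ¬ Summable fun k : ℕ => d k / (2 : ℝ) ^ k) :
    ∃ (Ω : Type) (_ : MeasurableSpace Ω) (μ : Measure Ω) (_ : IsProbabilityMeasure μ) (g : ℕ → Ω → ℕ),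
      (∀ n, Measurable (g n)) ∧ (∀ k, relEntropy (clG G) μ g k ≤ ENNReal.ofReal (d k)) ∧
      ∀ᵐ ω ∂μ, ∀ (H : Type) [AddCommGroup H], IsP p H →
        ¬ Tendsto (share G H fun n => g n ω) atTop (𝓝 (c / naut H)) := by
  have hcl := clG_prob h3 hG
  obtain ⟨i0, _⟩ := hG.surj PUnit isP_unit
  obtain ⟨Ω, mΩ, μ, hμ, g, h1, h2, h4⟩ := law_of_not_summable (ν := clG G) (atoms h3 hG) i0 hd hs
  refine ⟨Ω, mΩ, μ, hμ, g, h1, h2, ?_⟩
  filter_upwards [h4] with ω hω H _ hH
  obtain ⟨j, ⟨e⟩⟩ := hG.surj H hH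
  rw [share_eq hG e, ← hc H j ⟨e⟩]
  exact hω j

end

end Pool.Agent.Q197.MG
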