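import Pool.Agent.Q197.MG.Pgrp

/-!
# Project MG, module Gen: the probability that `n` random elements generate a finite abelian `p`-group
-/

set_option autoImplicit false

open Filter
open scoped ENNReal Classical Topology

namespace Pool.Agent.Q197.MG

noncomputable section

variable {p : ℕ} [hp : Fact p.Prime]

theorem IsP.quot {A : Type} [AddCommGroup A] (hA : IsP p A) (B : AddSubgroup A) : IsP p (A ⧸ B) := by
  obtain ⟨k, hk⟩ := hA
  have h : B.index ∣ p ^ k := by rw [← hk]; exact B.index_dvd_card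
  obtain ⟨j, _, hj⟩ := (Nat.dvd_prime_pow hp.out).1 h
  exact ⟨j, hj⟩

theorem IsP.sub {A : Type} [AddCommGroup A] (hA : IsP p A) (B : AddSubgroup A) : IsP p B := by
  obtain ⟨k, hk⟩ := hA
  have h : Nat.card B ∣ p ^ k := by rw [← hk]; exact B.card_addSubgroup_dvd_card
  obtain ⟨j, _, hj⟩ := (Nat.dvd_prime_pow hp.out).1 h
  exact ⟨j, hj⟩

theorem IsP.congr {A B : Type} [AddCommGroup A] [AddCommGroup B] (hA : IsP p A) (e : A ≃+ B) : IsP p B := by
  obtain ⟨k, hk⟩ := hA
  exact ⟨k, by rw [← hk, Nat.card_congr e.symm.toEquiv]⟩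

/-- a homomorphism which is not surjective is killed by many characters -/
theorem killers {F A : Type} [AddCommGroup F] [AddCommGroup A] (hA : IsP p A) (f : F →+ A)
    (hf : ¬ Function.Surjective f) : p - 1 ≤ Nat.card {φ : Sj A (ZMod p) // φ.1.comp f = 0} := by
  have hfin := hA.finite
  have hfs : Finite (Sj A (ZMod p)) := Finite.of_injective (fun f : Sj A (ZMod p) => f.1) Subtype.val_injective
  have h1 : Nat.card (A ⧸ f.range) ≠ 1 := by
    intro h
    apply hf
    rw [← AddMonoidHom.range_eq_top, ← AddSubgroup.index_eq_one]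
    exact h
  have h2 := rk_pos (hA.quot f.range) h1
  have h3 := nsur_zmod (p := p) (A ⧸ f.range)
  have h4 : p ≤ p ^ rk p (A ⧸ f.range) := by
    calc p = p ^ 1 := (pow_one p).symm
      _ ≤ _ := Nat.pow_le_pow_right hp.out.pos h2
  have h5 : nsur (A ⧸ f.range) (ZMod p) ≤ Nat.card {φ : Sj A (ZMod p) // φ.1.comp f = 0} := by
    unfold nsur
    refine Nat.card_le_card_of_injective (fun φ : Sj (A ⧸ f.range) (ZMod p) =>
      (⟨⟨φ.1.comp (QuotientAddGroup.mk' f.range), φ.2.comp (QuotientAddGroup.mk'_surjective _)⟩, by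
        refine AddMonoidHom.ext fun x => ?_
        show φ.1 (QuotientAddGroup.mk (f x)) = 0
        rw [(QuotientAddGroup.eq_zero_iff (N := f.range) (f x)).2 ⟨x, rfl⟩, map_zero]⟩ :
        {φ : Sj A (ZMod p) // φ.1.comp f = 0})) ?_
    intro φ ψ h
    apply Subtype.ext
    refine AddMonoidHom.ext fun y => ?_
    obtain ⟨x, rfl⟩ := QuotientAddGroup.mk_surjective y
    have := congrArg (fun t => t.1.1 x) h
    exact this
  omega

theorem gen_bound (n : ℕ) {A : Type} [AddCommGroup A] (hA : IsP p A) :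
    Nat.card {f : Fn n →+ A // ¬ Function.Surjective f} * (p - 1) * p ^ n ≤ p ^ rk p A * Nat.card A ^ n := by
  have hfin := hA.finite
  have hfs : Finite (Sj A (ZMod p)) := Finite.of_injective (fun f : Sj A (ZMod p) => f.1) Subtype.val_injective
  have i1 := Fintype.ofFinite (Fn n →+ A)
  have i2 := Fintype.ofFinite (Sj A (ZMod p))
  have hker : ∀ φ : Sj A (ZMod p), Nat.card φ.1.ker * p = Nat.card A := by
    intro φ
    have h1 := φ.1.ker.card_mul_index
    rwa [AddSubgroup.index_ker, AddMonoidHom.range_eq_top.2 φ.2, Nat.card_congr (AddSubgroup.topEquiv).toEquiv,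
      Nat.card_zmod] at h1
  have hcount : ∀ φ : Sj A (ZMod p), Nat.card {f : Fn n →+ A // φ.1.comp f = 0} = Nat.card φ.1.ker ^ n := by
    intro φ
    rw [← nhom_Fn]
    unfold nhom
    exact Nat.card_congr
      { toFun := fun f => f.1.codRestrict φ.1.ker fun x => DFunLike.congr_fun f.2 x
        invFun := fun g => ⟨φ.1.ker.subtype.comp g, AddMonoidHom.ext fun x => (g x).2⟩
        left_inv := fun f => by
          apply Subtype.ext
          exact AddMonoidHom.ext fun x => rfl
        right_inv := fun g => AddMonoidHom.ext fun x => rfl }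
  have h1 : Nat.card {f : Fn n →+ A // ¬ Function.Surjective f} * (p - 1) ≤
      ∑ φ : Sj A (ZMod p), Nat.card {f : Fn n →+ A // φ.1.comp f = 0} := by
    have e1 : ∀ φ : Sj A (ZMod p), Nat.card {f : Fn n →+ A // φ.1.comp f = 0} =
        ∑ f : Fn n →+ A, if φ.1.comp f = 0 then 1 else 0 := by
      intro φ
      rw [Nat.card_eq_fintype_card, Fintype.card_subtype, Finset.card_filter]
    have e2 : ∀ f : Fn n →+ A, Nat.card {φ : Sj A (ZMod p) // φ.1.comp f = 0} =
        ∑ φ : Sj A (ZMod p), if φ.1.comp f = 0 then 1 else 0 := by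
      intro φ
      rw [Nat.card_eq_fintype_card, Fintype.card_subtype, Finset.card_filter]
    rw [Finset.sum_congr rfl fun φ _ => e1 φ, Finset.sum_comm, Nat.card_eq_fintype_card, Fintype.card_subtype,
      ← smul_eq_mul, ← Finset.sum_const]
    calc ∑ _f ∈ Finset.univ.filter (fun f : Fn n →+ A => ¬ Function.Surjective f), (p - 1)
        ≤ ∑ f ∈ Finset.univ.filter (fun f : Fn n →+ A => ¬ Function.Surjective f),
            ∑ φ : Sj A (ZMod p), (if φ.1.comp f = 0 then 1 else 0) := by
          refine Finset.sum_le_sum fun f hf => ?_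
          rw [← e2]
          exact killers hA f (Finset.mem_filter.1 hf).2
      _ ≤ _ := Finset.sum_le_sum_of_subset (Finset.filter_subset _ _)
  have h2 : (∑ φ : Sj A (ZMod p), Nat.card {f : Fn n →+ A // φ.1.comp f = 0}) * p ^ n =
      nsur A (ZMod p) * Nat.card A ^ n := by
    rw [Finset.sum_mul]
    have : ∀ φ : Sj A (ZMod p), Nat.card {f : Fn n →+ A // φ.1.comp f = 0} * p ^ n = Nat.card A ^ n := fun φ => by
      rw [hcount, ← mul_pow, hker]
    rw [Finset.sum_congr rfl fun φ _ => this φ, Finset.sum_const, Finset.card_univ, smul_eq_mul, nsur,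
      Nat.card_eq_fintype_card (α := Sj A (ZMod p))]
  calc Nat.card {f : Fn n →+ A // ¬ Function.Surjective f} * (p - 1) * p ^ n
      ≤ (∑ φ : Sj A (ZMod p), Nat.card {f : Fn n →+ A // φ.1.comp f = 0}) * p ^ n := Nat.mul_le_mul_right _ h1
    _ = nsur A (ZMod p) * Nat.card A ^ n := h2
    _ ≤ _ := by
        refine Nat.mul_le_mul_right _ ?_
        have := nsur_zmod (p := p) A
        omega

theorem card_split (n : ℕ) (A : Type) [AddCommGroup A] [Finite A] :
    nsur (Fn n) A + Nat.card {f : Fn n →+ A // ¬ Function.Surjective f} = Nat.card A ^ n := by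
  rw [← nhom_Fn]
  unfold nsur nhom
  rw [← Nat.card_congr (Equiv.sumCompl (fun f : Fn n →+ A => Function.Surjective f)), Nat.card_sum]

/-- the probability that `n` random elements generate `A` -/
def cc (n : ℕ) (A : Type) [AddCommGroup A] : ℝ := nsur (Fn n) A / (Nat.card A : ℝ) ^ n

theorem cc_nonneg (n : ℕ) (A : Type) [AddCommGroup A] : 0 ≤ cc n A := by unfold cc; positivity

theorem cc_le (n : ℕ) (A : Type) [AddCommGroup A] [Finite A] : cc n A ≤ 1 := by
  unfold cc
  have h := card_split n A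
  have h0 : (0 : ℝ) < (Nat.card A : ℝ) ^ n := by
    have : 0 < Nat.card A := Nat.card_pos
    positivity
  rw [div_le_one h0]
  have : nsur (Fn n) A ≤ Nat.card A ^ n := by omega
  exact_mod_cast this

theorem cc_ge (n : ℕ) {A : Type} [AddCommGroup A] (hA : IsP p A) :
    1 - (p : ℝ) ^ rk p A / (((p : ℝ) - 1) * (p : ℝ) ^ n) ≤ cc n A := by
  have hfin := hA.finite
  have h := card_split n A
  have hb := gen_bound n hA
  have h0 : (0 : ℝ) < (Nat.card A : ℝ) ^ n := by
    have : 0 < Nat.card A := Nat.card_pos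
    positivity
  have hp2 : (2 : ℝ) ≤ p := by exact_mod_cast hp.out.two_le
  have hpn : (0 : ℝ) < (p : ℝ) ^ n := by positivity
  have hp1 : ((p - 1 : ℕ) : ℝ) = (p : ℝ) - 1 := by
    rw [Nat.cast_sub hp.out.one_lt.le]
    simp
  set u := Nat.card {f : Fn n →+ A // ¬ Function.Surjective f} with hu
  have hb' : (u : ℝ) * ((p : ℝ) - 1) * (p : ℝ) ^ n ≤ (p : ℝ) ^ rk p A * (Nat.card A : ℝ) ^ n := by
    rw [← hp1]
    exact_mod_cast hb
  have h' : (nsur (Fn n) A : ℝ) + u = (Nat.card A : ℝ) ^ n := by exact_mod_cast h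
  unfold cc
  rw [le_div_iff₀ h0, sub_mul, one_mul]
  have h1 : (u : ℝ) ≤ (p : ℝ) ^ rk p A / (((p : ℝ) - 1) * (p : ℝ) ^ n) * (Nat.card A : ℝ) ^ n := by
    rw [div_mul_eq_mul_div, le_div_iff₀ (mul_pos (by linarith) hpn)]
    linarith
  linarith

/-- for odd `p` at least half of the `r`-tuples generate a group of rank `r` -/
theorem cc_half (h3 : 3 ≤ p) {A : Type} [AddCommGroup A] (hA : IsP p A) : 1 / 2 ≤ cc (rk p A) A := by
  refine le_trans ?_ (cc_ge (rk p A) hA)
  have hp3 : (3 : ℝ) ≤ p := by exact_mod_cast h3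
  have hpn : (0 : ℝ) < (p : ℝ) ^ rk p A := by positivity
  have : (p : ℝ) ^ rk p A / (((p : ℝ) - 1) * (p : ℝ) ^ rk p A) = 1 / ((p : ℝ) - 1) := by
    field_simp
  rw [this]
  have h2 : 1 / ((p : ℝ) - 1) ≤ 1 / 2 := one_div_le_one_div_of_le (by norm_num) (by linarith)
  linarith

theorem cc_tendsto {A : Type} [AddCommGroup A] (hA : IsP p A) : Tendsto (fun n => cc n A) atTop (𝓝 1) := by
  have hfin := hA.finite
  have hp2 : (2 : ℝ) ≤ p := by exact_mod_cast hp.out.two_le
  have h1 : Tendsto (fun n : ℕ => 1 - (p : ℝ) ^ rk p A / (((p : ℝ) - 1) * (p : ℝ) ^ n)) atTop (𝓝 (1 - 0)) := by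
    refine tendsto_const_nhds.sub ?_
    refine Tendsto.div_atTop tendsto_const_nhds ?_
    exact (tendsto_pow_atTop_atTop_of_one_lt (by linarith)).const_mul_atTop (by linarith)
  rw [sub_zero] at h1
  exact tendsto_of_tendsto_of_tendsto_of_le_of_le h1 tendsto_const_nhds (fun n => cc_ge n hA) fun n => cc_le n A

/-- minimal presentations exist -/
theorem presentation (h3 : 3 ≤ p) {A : Type} [AddCommGroup A] (hA : IsP p A) :
    ∃ π : Fn (rk p A) →+ A, Function.Surjective π := by
  have h := cc_half h3 hA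
  have hfin := hA.finite
  have h1 : 0 < nsur (Fn (rk p A)) A := by
    by_contra hcon
    have h0 : nsur (Fn (rk p A)) A = 0 := by omega
    unfold cc at h
    rw [h0] at h
    norm_num at h
  unfold nsur at h1
  have h2 := (Nat.card_pos_iff.1 h1).1
  obtain ⟨f⟩ := h2
  exact ⟨f.1, f.2⟩

end

end Pool.Agent.Q197.MG
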