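import Pool.Agent.Q197.MG.Gen

/-!
# Project MG, module Hom: homomorphisms and the subgroup `p A`
-/

set_option autoImplicit false

open Filter
open scoped ENNReal Classical Topology

namespace Pool.Agent.Q197.MG

noncomputable section

variable {p : ℕ} [hp : Fact p.Prime]

/-- the restriction to `p A` -/
def res (p : ℕ) (A B : Type) [AddCommGroup A] [AddCommGroup B] : (A →+ B) →+ (pA p A →+ pA p B) where
  toFun f := (f.comp (pA p A).subtype).codRestrict (pA p B) fun x => by
    obtain ⟨y, hy⟩ := x.2
    refine ⟨f y, ?_⟩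
    show p • f y = f x
    rw [← map_nsmul]
    exact congrArg f hy
  map_zero' := AddMonoidHom.ext fun x => rfl
  map_add' f g := AddMonoidHom.ext fun x => rfl

theorem nhom_res (A B : Type) [AddCommGroup A] [AddCommGroup B] [Finite A] [Finite B] :
    nhom A B = p ^ (rk p A * rk p B) * Nat.card (res p A B).range := by
  have h1 := (res p A B).ker.card_mul_index
  rw [AddSubgroup.index_ker] at h1
  have h2 : Nat.card (res p A B).ker = p ^ (rk p A * rk p B) := by
    rw [← nhom_quot, ← nhom_kill]
    refine Nat.card_congr (Equiv.subtypeEquivRight fun f => ?_)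
    rw [AddMonoidHom.mem_ker]
    constructor
    · intro h x hx
      have := DFunLike.congr_fun h ⟨x, hx⟩
      exact congrArg Subtype.val this
    · intro h
      refine AddMonoidHom.ext fun x => Subtype.ext ?_
      exact h x x.2
  show Nat.card (A →+ B) = _
  rw [← h1, h2]

theorem nhom_le (A B : Type) [AddCommGroup A] [AddCommGroup B] [Finite A] [Finite B] :
    nhom A B ≤ p ^ (rk p A * rk p B) * nhom (pA p A) (pA p B) := by
  rw [nhom_res (p := p)]
  refine Nat.mul_le_mul_left _ ?_
  unfold nhom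
  exact Nat.card_le_card_of_injective (fun x : (res p A B).range => x.1) Subtype.val_injective

theorem card_Fn_quot (n : ℕ) : Nat.card (Fn n ⧸ pA p (Fn n)) = p ^ n := by
  have h0 : (pA p (Fn n)) = ((Int.castAddHom (ZMod p)).compLeft (Fin n)).ker := by
    ext x
    rw [AddMonoidHom.mem_ker]
    constructor
    · rintro ⟨y, rfl⟩
      funext i
      show (((p • y) i : ℤ) : ZMod p) = 0
      simp
    · intro h
      have h1 : ∀ i, ∃ z : ℤ, x i = p * z := fun i => by
        have h2 : ((x i : ℤ) : ZMod p) = 0 := congrFun h i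
        exact (ZMod.intCast_zmod_eq_zero_iff_dvd _ _).1 h2
      choose z hz using h1
      refine ⟨z, ?_⟩
      funext i
      show (p • z) i = x i
      rw [hz i]
      simp
  have hs : Function.Surjective ((Int.castAddHom (ZMod p)).compLeft (Fin n)) := by
    intro y
    refine ⟨fun i => ((y i).val : ℤ), ?_⟩
    funext i
    show (((y i).val : ℤ) : ZMod p) = y i
    simp
  show (pA p (Fn n)).index = p ^ n
  rw [h0, AddSubgroup.index_ker, AddMonoidHom.range_eq_top.2 hs, Nat.card_congr (AddSubgroup.topEquiv).toEquiv,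
    Nat.card_fun, Nat.card_fin, Nat.card_zmod]

/-- the kernel of a minimal presentation -/
theorem ker_le {A : Type} [AddCommGroup A] [Finite A] {r : ℕ} (hr : rk p A = r) (π : Fn r →+ A)
    (hπ : Function.Surjective π) {v : Fn r} (hv : π v = 0) : v ∈ pA p (Fn r) := by
  have hle : pA p (Fn r) ≤ (pA p A).comap π := by
    rintro _ ⟨y, rfl⟩
    refine ⟨π y, ?_⟩
    show p • π y = π (p • y)
    rw [map_nsmul]
  have hfin : Finite (Fn r ⧸ pA p (Fn r)) := by
    apply Nat.finite_of_card_ne_zero
    rw [card_Fn_quot]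
    exact (pow_pos hp.out.pos r).ne'
  have hsur : Function.Surjective (QuotientAddGroup.map (pA p (Fn r)) (pA p A) π hle) := by
    intro y
    obtain ⟨a, rfl⟩ := QuotientAddGroup.mk_surjective y
    obtain ⟨x, rfl⟩ := hπ a
    exact ⟨QuotientAddGroup.mk x, rfl⟩
  have hbij := hsur.bijective_of_nat_card_le (by rw [card_Fn_quot, card_quot, hr])
  have h1 : QuotientAddGroup.map (pA p (Fn r)) (pA p A) π hle (QuotientAddGroup.mk v) = 0 := by
    show (QuotientAddGroup.mk (π v) : A ⧸ pA p A) = 0
    rw [hv]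
    rfl
  rw [← QuotientAddGroup.eq_zero_iff]
  apply hbij.1
  rw [h1, map_zero]

theorem res_surjective (h3 : 3 ≤ p) {H : Type} [AddCommGroup H] (hH : IsP p H) : Function.Surjective (res p H H) := by
  have hf := hH.finite
  intro g
  have hpres := presentation h3 hH
  obtain ⟨r, hr⟩ : ∃ r, rk p H = r := ⟨_, rfl⟩
  rw [hr] at hpres
  obtain ⟨π, hπ⟩ := hpres
  have hy : ∀ j : Fin r, ∃ y : H, p • y = ((g ⟨p • π (Pi.single j 1), ⟨π (Pi.single j 1), rfl⟩⟩ : pA p H) : H) := fun j => by
    obtain ⟨y, hy⟩ := (g ⟨p • π (Pi.single j 1), ⟨π (Pi.single j 1), rfl⟩⟩).2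
    exact ⟨y, hy⟩
  choose y hy using hy
  set ft : Fn r →+ H := (homFn r H).symm y with hft
  have hfy : ∀ j, ft (Pi.single j 1) = y j := fun j => congrFun ((homFn r H).apply_symm_apply y) j
  set mr : H →+ pA p H := (mp p H).rangeRestrict with hmr
  set G1 : Fn r →+ H := (pA p H).subtype.comp (g.comp (mr.comp π)) with hG1
  set G2 : Fn r →+ H := (mp p H).comp ft with hG2
  have hG : G2 = G1 := by
    apply (homFn r H).injective
    funext j
    show p • ft (Pi.single j 1) = _
    rw [hfy, hy]
    rfl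
  have hker : π.ker ≤ ft.ker := by
    intro v hv
    obtain ⟨v', hv'⟩ := ker_le hr π hπ hv
    rw [AddMonoidHom.mem_ker, ← hv']
    show ft (p • v') = 0
    rw [map_nsmul]
    have h1 : p • ft v' = G1 v' := DFunLike.congr_fun hG v'
    rw [h1]
    have h2 : mr (π v') = 0 := by
      apply Subtype.ext
      show p • π v' = 0
      rw [← map_nsmul]
      have h4 : π (p • v') = π v := congrArg π hv'
      rw [h4]
      exact hv
    show ((g (mr (π v')) : pA p H) : H) = 0
    rw [h2, map_zero]
    rfl
  set f : H →+ H := π.liftOfSurjective hπ ⟨ft, hker⟩ with hf'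
  have hfπ : ∀ v, f (π v) = ft v := fun v =>
    π.liftOfRightInverse_comp_apply (Function.surjInv hπ) (Function.rightInverse_surjInv hπ) ⟨ft, hker⟩ v
  refine ⟨f, AddMonoidHom.ext fun x => Subtype.ext ?_⟩
  obtain ⟨h, hh⟩ := x.2
  obtain ⟨v, rfl⟩ := hπ h
  show f x = _
  have h5 : f x = p • ft v := by
    rw [← hfπ, ← map_nsmul]
    exact congrArg f hh.symm
  rw [h5]
  have h6 : p • ft v = G1 v := DFunLike.congr_fun hG v
  rw [h6]
  show ((g (mr (π v)) : pA p H) : H) = _
  have h7 : mr (π v) = x := Subtype.ext hh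
  rw [h7]

/-- endomorphisms -/
theorem nhom_self (h3 : 3 ≤ p) {H : Type} [AddCommGroup H] (hH : IsP p H) :
    p ^ (rk p H * rk p H) * nhom (pA p H) (pA p H) = nhom H H := by
  have hf := hH.finite
  rw [nhom_res (p := p) H H, AddMonoidHom.range_eq_top.2 (res_surjective h3 hH),
    Nat.card_congr (AddSubgroup.topEquiv).toEquiv]
  rfl

end

end Pool.Agent.Q197.MG
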