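import Mathlib

/-!
# Project MG, module Lat: surjections onto finite abelian groups and sublattices

`Fn n` is the group `ℤ ^ n`.  Surjective homomorphisms `ℤ ^ n → A` are counted by their kernels (`sj_sum`), and pairs
`L ≤ ker ψ` in two ways (`transfer`).
-/

set_option autoImplicit false

open scoped ENNReal Classical

namespace Pool.Agent.Q197.MG

noncomputable section

/-- surjective homomorphisms -/
abbrev Sj (A B : Type) [AddCommGroup A] [AddCommGroup B] : Type := {f : A →+ B // Function.Surjective f}

/-- the number of surjective homomorphisms -/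
def nsur (A B : Type) [AddCommGroup A] [AddCommGroup B] : ℕ := Nat.card {f : A →+ B // Function.Surjective f}

/-- the number of homomorphisms -/
def nhom (A B : Type) [AddCommGroup A] [AddCommGroup B] : ℕ := Nat.card (A →+ B)

/-- the number of automorphisms -/
def naut (A : Type) [AddCommGroup A] : ℕ := Nat.card (A ≃+ A)

/-- the group `ℤ ^ n` -/
abbrev Fn (n : ℕ) : Type := Fin n → ℤ

/-! ### finiteness -/

theorem tsum_one_eq (X : Type) [Finite X] : ∑' _x : X, (1 : ℝ≥0∞) = Nat.card X := by
  have := Fintype.ofFinite X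
  rw [tsum_fintype, Finset.sum_const, Finset.card_univ, nsmul_eq_mul, mul_one, Nat.card_eq_fintype_card]

instance finite_aut (A : Type) [AddCommGroup A] [Finite A] : Finite (A ≃+ A) :=
  Finite.of_injective (fun e => (e : A → A)) DFunLike.coe_injective

instance finite_hom (A B : Type) [AddCommGroup A] [AddCommGroup B] [Finite A] [Finite B] : Finite (A →+ B) :=
  Finite.of_injective (fun e => (e : A → B)) DFunLike.coe_injective

theorem finite_equiv (A B : Type) [AddCommGroup A] [AddCommGroup B] [Finite B] : Finite (A ≃+ B) := by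
  by_cases h : Nonempty (A ≃+ B)
  · obtain ⟨e⟩ := h
    exact Finite.of_injective (fun f : A ≃+ B => e.symm.trans f) fun f g hfg => by
      ext x
      have := DFunLike.congr_fun hfg (e x)
      simpa using this
  · rw [not_nonempty_iff] at h
    infer_instance

theorem card_equiv (A B : Type) [AddCommGroup A] [AddCommGroup B] (e : A ≃+ B) : Nat.card (A ≃+ B) = naut B := by
  unfold naut
  exact Nat.card_congr ⟨fun f => e.symm.trans f, fun f => e.trans f, fun f => by ext x; simp, fun f => by ext x; simp⟩

theorem naut_pos (A : Type) [AddCommGroup A] [Finite A] : 0 < naut A := by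
  unfold naut
  have : Nonempty (A ≃+ A) := ⟨AddEquiv.refl A⟩
  exact Nat.card_pos

theorem nsur_le (A B : Type) [AddCommGroup A] [AddCommGroup B] [Finite (A →+ B)] : nsur A B ≤ nhom A B := by
  unfold nsur nhom
  exact Nat.card_le_card_of_injective (fun f : {f : A →+ B // Function.Surjective f} => f.1) Subtype.val_injective

theorem nhom_pos (A B : Type) [AddCommGroup A] [AddCommGroup B] [Finite (A →+ B)] : 0 < nhom A B := by
  unfold nhom
  exact Nat.card_pos

/-- homomorphisms from `ℤ ^ n` -/
def homFn (n : ℕ) (A : Type) [AddCommGroup A] : (Fn n →+ A) ≃ (Fin n → A) where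
  toFun f i := f (Pi.single i 1)
  invFun v :=
    { toFun := fun x => ∑ i, x i • v i
      map_zero' := by simp
      map_add' := fun x y => by
        simp only [Pi.add_apply, add_smul, Finset.sum_add_distrib] }
  left_inv f := by
    refine AddMonoidHom.ext fun x => ?_
    show (∑ i, x i • f (Pi.single i 1)) = f x
    conv_rhs => rw [← Finset.univ_sum_single x]
    rw [map_sum]
    refine Finset.sum_congr rfl fun i _ => ?_
    rw [← map_zsmul, ← Pi.single_smul, smul_eq_mul, mul_one]
  right_inv v := by
    funext i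
    show (∑ j, (Pi.single i (1 : ℤ) : Fn n) j • v j) = v i
    rw [Finset.sum_eq_single i]
    · simp
    · intro j _ hj
      simp [hj]
    · simp

instance finite_homFn (n : ℕ) (A : Type) [AddCommGroup A] [Finite A] : Finite (Fn n →+ A) :=
  Finite.of_equiv _ (homFn n A).symm

theorem nhom_Fn (n : ℕ) (A : Type) [AddCommGroup A] [Finite A] : nhom (Fn n) A = Nat.card A ^ n := by
  unfold nhom
  rw [Nat.card_congr (homFn n A), Nat.card_fun, Nat.card_fin]

/-- sublattices of finite index are isomorphic to the lattice -/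
theorem lat_iso (n : ℕ) (M : AddSubgroup (Fn n)) (h : Finite (Fn n ⧸ M)) : Nonempty (M ≃+ Fn n) := by
  let N : Submodule ℤ (Fn n) := AddSubgroup.toIntSubmodule M
  have h0 : Finite (Fn n ⧸ N) := h
  have h1 : Module.finrank ℤ N = Module.finrank ℤ (Fn n) := (Submodule.finiteQuotient_iff N).1 h0
  rw [Module.finrank_fin_fun] at h1
  let b := Module.finBasisOfFinrankEq ℤ N h1
  exact ⟨(b.equivFun.toAddEquiv : N ≃+ Fn n)⟩

/-! ### kernels -/

/-- a sublattice and an isomorphism of the quotient with `A` give a surjective homomorphism -/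
def ofKer (F A : Type) [AddCommGroup F] [AddCommGroup A] (x : Σ L : AddSubgroup F, (F ⧸ L) ≃+ A) : Sj F A :=
  ⟨(x.2 : (F ⧸ x.1) →+ A).comp (QuotientAddGroup.mk' x.1),
    x.2.surjective.comp (QuotientAddGroup.mk'_surjective x.1)⟩

theorem ofKer_bij (F A : Type) [AddCommGroup F] [AddCommGroup A] : Function.Bijective (ofKer F A) := by
  constructor
  · rintro ⟨L, e⟩ ⟨L', e'⟩ h
    have h1 : ∀ x : F, e (QuotientAddGroup.mk x) = e' (QuotientAddGroup.mk x) := fun x =>
      DFunLike.congr_fun (congrArg Subtype.val h) x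
    have hL : L = L' := by
      ext x
      rw [← QuotientAddGroup.eq_zero_iff (N := L), ← QuotientAddGroup.eq_zero_iff (N := L')]
      constructor
      · intro hx
        have := h1 x
        rw [hx, map_zero] at this
        exact (AddEquiv.map_eq_zero_iff e').1 this.symm
      · intro hx
        have := h1 x
        rw [hx, map_zero] at this
        exact (AddEquiv.map_eq_zero_iff e).1 this
    subst hL
    have he : e = e' := by
      ext y
      obtain ⟨x, rfl⟩ := QuotientAddGroup.mk_surjective y
      exact h1 x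
    rw [he]
  · rintro ⟨f, hf⟩
    refine ⟨⟨f.ker, QuotientAddGroup.quotientKerEquivOfSurjective f hf⟩, ?_⟩
    apply Subtype.ext
    ext x
    rfl

theorem sj_sum (F A : Type) [AddCommGroup F] [AddCommGroup A] [Finite A] [Finite (F →+ A)] :
    (nsur F A : ℝ≥0∞) = ∑' L : AddSubgroup F, (Nat.card ((F ⧸ L) ≃+ A) : ℝ≥0∞) := by
  have hf : Finite (Sj F A) := Finite.of_injective (fun f : Sj F A => f.1) Subtype.val_injective
  unfold nsur
  rw [← tsum_one_eq (Sj F A), ← (Equiv.ofBijective _ (ofKer_bij F A)).tsum_eq (fun _ => (1 : ℝ≥0∞)),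
    ENNReal.tsum_sigma']
  refine tsum_congr fun L => ?_
  have := finite_equiv (F ⧸ L) A
  exact tsum_one_eq _

/-! ### transfer -/

/-- homomorphisms from a quotient -/
theorem sj_quot (F H : Type) [AddCommGroup F] [AddCommGroup H] [Finite H] [Finite (F →+ H)] (L : AddSubgroup F) :
    (nsur (F ⧸ L) H : ℝ≥0∞) = ∑' ψ : Sj F H, if L ≤ ψ.1.ker then 1 else 0 := by
  have hf : Finite (Sj F H) := Finite.of_injective (fun f : Sj F H => f.1) Subtype.val_injective
  have e : Sj (F ⧸ L) H ≃ {ψ : Sj F H // L ≤ ψ.1.ker} :=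
    { toFun := fun φ => ⟨⟨φ.1.comp (QuotientAddGroup.mk' L), φ.2.comp (QuotientAddGroup.mk'_surjective L)⟩, by
        intro x hx
        show φ.1 (QuotientAddGroup.mk x) = 0
        rw [(QuotientAddGroup.eq_zero_iff x).2 hx, map_zero]⟩
      invFun := fun ψ => ⟨QuotientAddGroup.lift L ψ.1.1 ψ.2, by
        intro y
        obtain ⟨x, hx⟩ := ψ.1.2 y
        exact ⟨QuotientAddGroup.mk x, hx⟩⟩
      left_inv := fun φ => by
        apply Subtype.ext
        ext x
        rfl
      right_inv := fun ψ => by
        apply Subtype.ext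
        apply Subtype.ext
        ext x
        rfl }
  unfold nsur
  rw [Nat.card_congr e, ← tsum_one_eq]
  have h := tsum_subtype {ψ : Sj F H | L ≤ ψ.1.ker} (fun _ => (1 : ℝ≥0∞))
  refine h.trans (tsum_congr fun ψ => ?_)
  by_cases hψ : L ≤ ψ.1.ker
  · simp [hψ]
  · simp [hψ]

theorem sub_sum {F : Type} [AddCommGroup F] (M : AddSubgroup F) (g : ℕ → ℝ≥0∞) :
    ∑' L : AddSubgroup F, (if L ≤ M then g L.index else 0) = ∑' K : AddSubgroup M, g (K.index * M.index) := by
  have h := tsum_subtype {L : AddSubgroup F | L ≤ M} (fun L => g L.index)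
  have h2 : ∑' L : AddSubgroup F, (if L ≤ M then g L.index else 0) =
      ∑' L : {L : AddSubgroup F | L ≤ M}, g L.1.index := by
    rw [h]
    refine tsum_congr fun L => ?_
    by_cases hL : L ≤ M
    · simp [hL]
    · simp [hL]
  have h3 := (AddSubgroup.MapSubtype.orderIso M).toEquiv.tsum_eq (fun L : {L : AddSubgroup F // L ≤ M} => g L.1.index)
  refine h2.trans (h3.symm.trans (tsum_congr fun K => ?_))
  show g ((K.map M.subtype).index) = _
  rw [AddSubgroup.index_map_subtype]

theorem index_equiv {A B : Type} [AddCommGroup A] [AddCommGroup B] (e : A ≃+ B) (g : ℕ → ℝ≥0∞) :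
    ∑' K : AddSubgroup A, g K.index = ∑' K : AddSubgroup B, g K.index := by
  rw [← (e.mapAddSubgroup.toEquiv).tsum_eq (fun K : AddSubgroup B => g K.index)]
  refine tsum_congr fun K => ?_
  show g K.index = g ((K.map (e : A →+ B)).index)
  rw [AddSubgroup.index_map_of_bijective e.bijective]

theorem transfer (n : ℕ) (H : Type) [AddCommGroup H] [Finite H] (g : ℕ → ℝ≥0∞) :
    ∑' L : AddSubgroup (Fn n), g L.index * nsur (Fn n ⧸ L) H =
      nsur (Fn n) H * ∑' K : AddSubgroup (Fn n), g (Nat.card H * K.index) := by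
  have hf : Finite (Sj (Fn n) H) := Finite.of_injective (fun f : Sj (Fn n) H => f.1) Subtype.val_injective
  have h1 : ∀ L : AddSubgroup (Fn n), g L.index * nsur (Fn n ⧸ L) H =
      ∑' ψ : Sj (Fn n) H, if L ≤ ψ.1.ker then g L.index else 0 := by
    intro L
    rw [sj_quot, ← ENNReal.tsum_mul_left]
    refine tsum_congr fun ψ => ?_
    split_ifs <;> simp
  rw [tsum_congr h1, ENNReal.tsum_comm]
  have h2 : ∀ ψ : Sj (Fn n) H, ∑' L : AddSubgroup (Fn n), (if L ≤ ψ.1.ker then g L.index else 0) =
      ∑' K : AddSubgroup (Fn n), g (Nat.card H * K.index) := by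
    intro ψ
    have hidx : ψ.1.ker.index = Nat.card H := by
      rw [AddSubgroup.index_ker, AddMonoidHom.range_eq_top.2 ψ.2]
      exact Nat.card_congr (AddSubgroup.topEquiv).toEquiv
    have hq : Finite (Fn n ⧸ ψ.1.ker) :=
      Finite.of_equiv H (QuotientAddGroup.quotientKerEquivOfSurjective ψ.1 ψ.2).symm.toEquiv
    obtain ⟨e⟩ := lat_iso n ψ.1.ker hq
    rw [sub_sum, hidx, index_equiv e (fun m => g (m * Nat.card H))]
    refine tsum_congr fun K => ?_
    rw [mul_comm]
  rw [tsum_congr h2, ENNReal.tsum_const, nsur]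
  congr 1
  rw [ENat.card_eq_coe_natCard]
  rfl

end

end Pool.Agent.Q197.MG
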