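import Pool.Agent.Q197.MG.Pow
import Pool.Agent.Q197.ML.Cl

/-!
# Project MG, module Law: the Cohen-Lenstra law, its mean values, tails and atoms
-/

set_option autoImplicit false

open Filter MeasureTheory Pool.Agent.Q197.ML
open scoped ENNReal Classical Topology

namespace Pool.Agent.Q197.MG

noncomputable section

/-- the Cohen-Lenstra law: the group `G i` has probability proportional to `1 / #Aut (G i)` -/
def clG (G : ℕ → Type) [∀ i, AddCommGroup (G i)] : Measure ℕ :=
  Measure.sum fun i => ENNReal.ofReal (1 / naut (G i) / ∑' j, 1 / (naut (G j) : ℝ)) • Measure.dirac i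

/-- what is used of a law `ν` and a function `f` -/
structure Mom (ν : Measure ℕ) (f : ℕ → ℝ) (L : ℝ) : Prop where
  L_pos : 0 < L
  nonneg : ∀ i, 0 ≤ f i
  int : Integrable f ν
  mean : ∫ i, f i ∂ν = 1
  sq : Integrable (fun i => f i ^ 2) ν
  tail : ∃ C : ℝ, 0 < C ∧ ∀ x, 0 ≤ x → ν.real {i | Real.exp x < f i} ≤ C * Real.exp (-(x ^ 2 / L))
  atom : ∀ x, 0 ≤ x → ∃ i, Real.exp x ≤ f i ∧ 0 < ν.real {i} ∧
    Real.log (1 / ν.real {i}) ≤ (x / L + 2) ^ 2 * L + Real.log 2

variable {p : ℕ} [hp : Fact p.Prime] (h3 : 3 ≤ p) {G : ℕ → Type} [∀ i, AddCommGroup (G i)] (hG : IsEnum p G)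

/-- the normalized weights -/
def nw (G : ℕ → Type) [∀ i, AddCommGroup (G i)] (i : ℕ) : ℝ := W G i / ∑' j, W G j

theorem clG_eq (G : ℕ → Type) [∀ i, AddCommGroup (G i)] : clG G = law (nw G) := rfl

include h3 hG in
theorem mass_ge : 1 ≤ ∑' j, W G j := by
  obtain ⟨i, ⟨e⟩⟩ := hG.surj PUnit isP_unit
  have h1 : W G i = 1 := by
    have hf := (hG.isP i).finite
    have hss : Subsingleton (G i) := e.symm.toEquiv.subsingleton
    have : naut (G i) = 1 := by
      unfold naut
      have : Unique (G i ≃+ G i) := { default := AddEquiv.refl _, uniq := fun f => by ext x; exact Subsingleton.elim _ _ }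
      exact Nat.card_unique
    unfold W
    rw [this]
    simp
  rw [← h1]
  exact (summable_W h3 hG).le_tsum i fun j _ => W_nonneg j

include h3 hG in
theorem nw_nonneg (i : ℕ) : 0 ≤ nw G i :=
  div_nonneg (W_nonneg i) (zero_le_one.trans (mass_ge h3 hG))

include h3 hG in
theorem nw_le (i : ℕ) : nw G i ≤ W G i := div_le_self (W_nonneg i) (mass_ge h3 hG)

include h3 hG in
theorem nw_ge (i : ℕ) : W G i / 2 ≤ nw G i :=
  div_le_div_of_nonneg_left (W_nonneg i) (lt_of_lt_of_le one_pos (mass_ge h3 hG)) (mass_le h3 hG)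

include h3 hG in
theorem nw_summable : Summable (nw G) := (summable_W h3 hG).div_const _

include h3 hG in
theorem nw_tsum : ∑' i, nw G i = 1 := by
  unfold nw
  rw [tsum_div_const]
  exact div_self (ne_of_gt (zero_lt_one.trans_le (mass_ge h3 hG)))

include h3 hG in
theorem clG_prob : IsProbabilityMeasure (clG G) := by
  refine ⟨?_⟩
  rw [clG_eq, law_apply]
  simp only [Set.indicator_univ, mul_one]
  rw [← ENNReal.ofReal_tsum_of_nonneg (nw_nonneg h3 hG) (nw_summable h3 hG), nw_tsum h3 hG, ENNReal.ofReal_one]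

include h3 hG in
theorem clG_real (i : ℕ) : (clG G).real {i} = nw G i := by
  rw [clG_eq, law_real (nw_nonneg h3 hG) (nw_summable h3 hG), tsum_eq_single i]
  · simp
  · intro j hj
    simp [hj]

include h3 hG in
/-- the real form of the bound for the moments -/
theorem mm_real (H : Type) [AddCommGroup H] (hH : IsP p H) : ∃ C : ℝ, 0 < C ∧ ∀ t : ℕ,
    Summable (fun i => nw G i * (nhom (G i) H : ℝ) ^ (2 * t)) ∧
      ∑' i, nw G i * (nhom (G i) H : ℝ) ^ (2 * t) ≤ C * (nhom H H : ℝ) ^ (t * t) := by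
  obtain ⟨C, hC, hb⟩ := mm_bound hG h3 (Nat.card H) H hH le_rfl
  refine ⟨C.toReal + 1, by positivity, fun t => ?_⟩
  have hnn : ∀ i, 0 ≤ W G i * (nhom (G i) H : ℝ) ^ (2 * t) := fun i => mul_nonneg (W_nonneg i) (by positivity)
  have e1 : ∀ i, (naut (G i) : ℝ≥0∞)⁻¹ * (nhom (G i) H : ℝ≥0∞) ^ (2 * t) =
      ENNReal.ofReal (W G i * (nhom (G i) H : ℝ) ^ (2 * t)) := fun i => by
    have hf := (hG.isP i).finite
    have ha : (0 : ℝ) < naut (G i) := by exact_mod_cast naut_pos (G i)
    unfold W
    rw [ENNReal.ofReal_mul (by positivity), one_div, ENNReal.ofReal_inv_of_pos ha, ENNReal.ofReal_natCast,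
      ENNReal.ofReal_pow (by positivity), ENNReal.ofReal_natCast]
  have h1 := hb t
  unfold MM at h1
  rw [tsum_congr e1] at h1
  have htop : C * (nhom H H : ℝ≥0∞) ^ (t * t) ≠ ⊤ :=
    ENNReal.mul_ne_top hC (ENNReal.pow_ne_top (ENNReal.natCast_ne_top _))
  have hs : Summable fun i => W G i * (nhom (G i) H : ℝ) ^ (2 * t) := by
    have h2 := ENNReal.summable_toReal (ne_top_of_le_ne_top htop h1)
    refine h2.congr fun i => ?_
    rw [ENNReal.toReal_ofReal (hnn i)]
  have h4 : ∑' i, W G i * (nhom (G i) H : ℝ) ^ (2 * t) ≤ C.toReal * (nhom H H : ℝ) ^ (t * t) := by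
    rw [← ENNReal.ofReal_tsum_of_nonneg hnn hs] at h1
    have h5 := ENNReal.toReal_mono htop h1
    rw [ENNReal.toReal_ofReal (tsum_nonneg hnn), ENNReal.toReal_mul, ENNReal.toReal_pow, ENNReal.toReal_natCast] at h5
    exact h5
  have hle : ∀ i, nw G i * (nhom (G i) H : ℝ) ^ (2 * t) ≤ W G i * (nhom (G i) H : ℝ) ^ (2 * t) := fun i =>
    mul_le_mul_of_nonneg_right (nw_le h3 hG i) (by positivity)
  have hs2 : Summable fun i => nw G i * (nhom (G i) H : ℝ) ^ (2 * t) :=
    Summable.of_nonneg_of_le (fun i => mul_nonneg (nw_nonneg h3 hG i) (by positivity)) hle hs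
  refine ⟨hs2, (hs2.tsum_le_tsum hle hs).trans (h4.trans ?_)⟩
  exact mul_le_mul_of_nonneg_right (by linarith) (by positivity)

theorem nhom_self_ge {H : Type} [AddCommGroup H] [Finite H] (h1 : Nat.card H ≠ 1) : 2 ≤ nhom H H := by
  have hne : Nontrivial H := by
    by_contra hcon
    rw [not_nontrivial_iff_subsingleton] at hcon
    exact h1 (Nat.card_eq_one_iff_unique.2 ⟨hcon, ⟨0⟩⟩)
  obtain ⟨x, hx⟩ := exists_ne (0 : H)
  have h2 : (0 : H →+ H) ≠ AddMonoidHom.id H := by
    intro h
    exact hx (DFunLike.congr_fun h x).symm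
  have hnt : Nontrivial (H →+ H) := ⟨⟨0, AddMonoidHom.id H, h2⟩⟩
  unfold nhom
  exact Finite.one_lt_card

include h3 hG in
/-- **mean, tail and atoms of the number of surjections onto `H`** -/
theorem clG_mom (H : Type) [AddCommGroup H] (hH : IsP p H) (h1 : Nat.card H ≠ 1) :
    Mom (clG G) (fun i => (nsur (G i) H : ℝ)) (Real.log (nhom H H)) := by
  have hf := hH.finite
  have hE := nhom_self_ge h1
  have hE2 : (2 : ℝ) ≤ nhom H H := by exact_mod_cast hE
  set L := Real.log (nhom H H) with hL
  have hL0 : 0 < L := Real.log_pos (by linarith)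
  have hexpL : Real.exp L = nhom H H := Real.exp_log (by linarith)
  obtain ⟨C, hC, hmm⟩ := mm_real h3 hG H hH
  have hsurhom : ∀ i, (nsur (G i) H : ℝ) ≤ nhom (G i) H := fun i => by
    have hfi := (hG.isP i).finite
    exact_mod_cast nsur_le (G i) H
  -- the mean
  have hsum : HasSum (fun i => nw G i * (nsur (G i) H : ℝ)) 1 := by
    have h2 := (summable_moment h3 hG H hH).hasSum.div_const (∑' j, W G j)
    rw [moment h3 hG H hH, div_self (ne_of_gt (zero_lt_one.trans_le (mass_ge h3 hG)))] at h2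
    have e : (fun i => W G i * (nsur (G i) H : ℝ) / ∑' j, W G j) = fun i => nw G i * (nsur (G i) H : ℝ) := by
      funext i
      unfold nw
      ring
    rw [e] at h2
    exact h2
  have hsq : Summable fun i => nw G i * (nsur (G i) H : ℝ) ^ 2 := by
    have h2 := (hmm 1).1
    rw [mul_one] at h2
    refine Summable.of_nonneg_of_le (fun i => mul_nonneg (nw_nonneg h3 hG i) (by positivity)) (fun i => ?_) h2
    exact mul_le_mul_of_nonneg_left (pow_le_pow_left₀ (Nat.cast_nonneg _) (hsurhom i) 2) (nw_nonneg h3 hG i)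
  refine ⟨hL0, fun i => Nat.cast_nonneg _, ?_, ?_, ?_, ?_, ?_⟩
  · rw [clG_eq]
    exact (law_int (nw_nonneg h3 hG) (fun i => Nat.cast_nonneg _) hsum.summable).1
  · rw [clG_eq, (law_int (nw_nonneg h3 hG) (fun i => Nat.cast_nonneg _) hsum.summable).2, hsum.tsum_eq]
  · rw [clG_eq]
    exact (law_int (nw_nonneg h3 hG) (fun i => sq_nonneg _) hsq).1
  · -- the tail
    refine ⟨C * Real.exp L, by positivity, fun x hx => ?_⟩
    set t : ℕ := ⌊x / L⌋₊ with ht
    have ht1 : (t : ℝ) * L ≤ x := by
      have := Nat.floor_le (div_nonneg hx hL0.le)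
      rwa [le_div_iff₀ hL0] at this
    have ht2 : x < (t + 1) * L := by
      have := Nat.lt_floor_add_one (x / L)
      rwa [div_lt_iff₀ hL0] at this
    rw [clG_eq, law_real (nw_nonneg h3 hG) (nw_summable h3 hG)]
    have hi : ∀ i, 0 ≤ ({i | Real.exp x < (nsur (G i) H : ℝ)} : Set ℕ).indicator (fun _ => (1 : ℝ)) i := fun r =>
      Set.indicator_nonneg (fun _ _ => zero_le_one) r
    have hle : ∀ i, nw G i * ({i | Real.exp x < (nsur (G i) H : ℝ)} : Set ℕ).indicator (fun _ => (1 : ℝ)) i ≤
        Real.exp (-(2 * t * x)) * (nw G i * (nhom (G i) H : ℝ) ^ (2 * t)) := by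
      intro i
      by_cases hxi : Real.exp x < (nsur (G i) H : ℝ)
      · rw [Set.indicator_of_mem (show i ∈ {i | Real.exp x < (nsur (G i) H : ℝ)} from hxi), mul_one]
        have h4 : Real.exp (2 * t * x) ≤ (nhom (G i) H : ℝ) ^ (2 * t) := by
          have h5 : Real.exp x ≤ nhom (G i) H := hxi.le.trans (hsurhom i)
          have h6 := pow_le_pow_left₀ (Real.exp_pos x).le h5 (2 * t)
          rw [← Real.exp_nat_mul] at h6
          push_cast at h6
          exact h6
        calc nw G i = nw G i * (Real.exp (-(2 * t * x)) * Real.exp (2 * t * x)) := by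
              rw [← Real.exp_add, neg_add_cancel, Real.exp_zero, mul_one]
          _ ≤ nw G i * (Real.exp (-(2 * t * x)) * (nhom (G i) H : ℝ) ^ (2 * t)) :=
              mul_le_mul_of_nonneg_left (mul_le_mul_of_nonneg_left h4 (Real.exp_pos _).le) (nw_nonneg h3 hG i)
          _ = _ := by ring
      · rw [Set.indicator_of_notMem (show i ∉ {i | Real.exp x < (nsur (G i) H : ℝ)} from hxi), mul_zero]
        have := nw_nonneg h3 hG i
        positivity
    have hs1 : Summable fun i => nw G i * ({i | Real.exp x < (nsur (G i) H : ℝ)} : Set ℕ).indicator (fun _ => (1 : ℝ)) i :=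
      Summable.of_nonneg_of_le (fun i => mul_nonneg (nw_nonneg h3 hG i) (hi i)) hle ((hmm t).1.mul_left _)
    refine (hs1.tsum_le_tsum hle ((hmm t).1.mul_left _)).trans ?_
    rw [tsum_mul_left]
    refine (mul_le_mul_of_nonneg_left (hmm t).2 (Real.exp_pos _).le).trans ?_
    have h7 : (nhom H H : ℝ) ^ (t * t) = Real.exp (t * t * L) := by
      rw [← hexpL, ← Real.exp_nat_mul]
      push_cast
      ring_nf
    rw [h7]
    have h8 : Real.exp (-(2 * t * x)) * (C * Real.exp (t * t * L)) = C * Real.exp (t * t * L - 2 * t * x) := by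
      rw [Real.exp_sub, Real.exp_neg]
      field_simp
    rw [h8, mul_assoc C (Real.exp L), ← Real.exp_add]
    refine mul_le_mul_of_nonneg_left (Real.exp_le_exp.2 ?_) hC.le
    have h9 : (x - t * L) ^ 2 / L ≤ L := by
      rw [div_le_iff₀ hL0]
      nlinarith
    have h10 : (x - t * L) ^ 2 / L = x ^ 2 / L - 2 * t * x + t * t * L := by
      field_simp
      ring
    linarith
  · -- the atoms
    intro x hx
    set t : ℕ := ⌈x / L⌉₊ with ht
    have ht1 : x ≤ t * L := by
      have := Nat.le_ceil (x / L)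
      rwa [div_le_iff₀ hL0] at this
    have ht2 : (t : ℝ) ≤ x / L + 1 := (Nat.ceil_lt_add_one (div_nonneg hx hL0.le)).le
    obtain ⟨i, ⟨e⟩⟩ := hG.surj (Fin (t + 1) → H) (isP_pow hH (t + 1))
    have hfi := (hG.isP i).finite
    have ha : (0 : ℝ) < naut (G i) := by exact_mod_cast naut_pos (G i)
    refine ⟨i, ?_, ?_, ?_⟩
    · rw [← nsur_congr e H]
      have h4 : (nhom H H : ℝ) ^ t ≤ nsur (Fin (t + 1) → H) H := by exact_mod_cast nsur_pow_ge H t
      refine le_trans ?_ h4
      rw [← hexpL, ← Real.exp_nat_mul]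
      exact Real.exp_le_exp.2 ht1
    · rw [clG_real h3 hG]
      exact lt_of_lt_of_le (by have := W_pos hG i; linarith) (nw_ge h3 hG i)
    · rw [clG_real h3 hG]
      have h4 : (naut (G i) : ℝ) ≤ Real.exp ((t + 1) * (t + 1) * L) := by
        have h5 : naut (G i) = naut (Fin (t + 1) → H) := by
          unfold naut
          exact Nat.card_congr ⟨fun f => (e.trans f).trans e.symm, fun f => (e.symm.trans f).trans e,
            fun f => by ext x; simp, fun f => by ext1 x; simp⟩
        have h6 : naut (Fin (t + 1) → H) ≤ nhom H H ^ ((t + 1) * (t + 1)) := (naut_le _).trans (nhom_pow_le H (t + 1))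
        rw [h5]
        calc ((naut (Fin (t + 1) → H) : ℕ) : ℝ) ≤ (nhom H H : ℝ) ^ ((t + 1) * (t + 1)) := by exact_mod_cast h6
          _ = _ := by
            rw [← hexpL, ← Real.exp_nat_mul]
            push_cast
            ring_nf
      have h7 : 1 / nw G i ≤ 2 * naut (G i) := by
        have h8 := nw_ge h3 hG i
        have h9 := W_pos hG i
        rw [div_le_iff₀ (by linarith)]
        have h10 : W G i = 1 / naut (G i) := rfl
        have h11 : 2 * (naut (G i) : ℝ) * (W G i / 2) = 1 := by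
          rw [h10]
          field_simp
        nlinarith
      have h12 : 0 < nw G i := lt_of_lt_of_le (by have := W_pos hG i; linarith) (nw_ge h3 hG i)
      calc Real.log (1 / nw G i) ≤ Real.log (2 * naut (G i)) := Real.log_le_log (by positivity) h7
        _ = Real.log 2 + Real.log (naut (G i)) := Real.log_mul (by norm_num) ha.ne'
        _ ≤ Real.log 2 + (t + 1) * (t + 1) * L := by
            have := (Real.log_le_iff_le_exp ha).2 h4
            linarith
        _ ≤ Real.log 2 + (x / L + 2) * (x / L + 2) * L := by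
            have h13 : (t : ℝ) + 1 ≤ x / L + 2 := by linarith
            have h14 : (0 : ℝ) ≤ t + 1 := by positivity
            have h15 := mul_le_mul h13 h13 h14 (h14.trans h13)
            have := mul_le_mul_of_nonneg_right h15 hL0.le
            linarith
        _ = _ := by ring

end

end Pool.Agent.Q197.MG
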