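import Pool.Agent.Q197.MG.NotLaw

/-!
# Project MG, module Many: unbounded moments of all groups at once
-/

set_option autoImplicit false

open MeasureTheory ProbabilityTheory Filter Asymptotics InformationTheory
open Pool.Agent.Q197.ML (block mean)
open scoped ENNReal Classical Topology

namespace Pool.Agent.Q197.MG

noncomputable section

/-- Abel and Dini -/
theorem abel_dini {a : ℕ → ℝ} (ha : ∀ k, 0 ≤ a k) (hs : ¬ Summable a) :
    ∃ e : ℕ → ℕ, (∀ k, 1 ≤ e k) ∧ Tendsto e atTop atTop ∧ ¬ Summable fun k => a k / e k := by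
  set S : ℕ → ℝ := fun k => ∑ j ∈ Finset.range (k + 1), a j with hS
  have hS0 : ∀ k, 0 ≤ S k := fun k => Finset.sum_nonneg fun j _ => ha j
  have hmono : Monotone S := by
    intro m n hmn
    exact Finset.sum_le_sum_of_subset_of_nonneg (Finset.range_mono (by omega)) fun j _ _ => ha j
  have htop : Tendsto S atTop atTop := by
    have h1 := (not_summable_iff_tendsto_nat_atTop_of_nonneg ha).1 hs
    exact h1.comp (tendsto_add_atTop_nat 1)
  refine ⟨fun k => ⌊S k⌋₊ + 1, fun k => Nat.le_add_left _ _, ?_, ?_⟩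
  · have h1 : Tendsto (fun k => ⌊S k⌋₊) atTop atTop := tendsto_nat_floor_atTop.comp htop
    exact tendsto_atTop_mono (fun k => Nat.le_succ _) h1
  · intro h
    have he : ∀ k, ((⌊S k⌋₊ + 1 : ℕ) : ℝ) ≤ S k + 1 := fun k => by
      push_cast
      have := Nat.floor_le (hS0 k)
      linarith
    have hpos : ∀ k, (0 : ℝ) < ((⌊S k⌋₊ + 1 : ℕ) : ℝ) := fun k => by positivity
    -- tails are small
    obtain ⟨T, hT⟩ := h
    have hcauchy := hT.tendsto_sum_nat.cauchySeq
    rw [Metric.cauchySeq_iff'] at hcauchy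
    obtain ⟨m, hm⟩ := hcauchy (1 / 2) (by norm_num)
    obtain ⟨n, hn1, hn2⟩ := ((htop.eventually (eventually_ge_atTop (2 * S m + 1))).and (eventually_ge_atTop (m + 1))).exists
    have h1 := hm (n + 1) (by omega)
    rw [Real.dist_eq] at h1
    have h2 := (le_abs_self _).trans_lt h1
    have h3 : ∑ j ∈ Finset.range (n + 1), a j / ((⌊S j⌋₊ + 1 : ℕ) : ℝ) -
        ∑ j ∈ Finset.range m, a j / ((⌊S j⌋₊ + 1 : ℕ) : ℝ) = ∑ j ∈ Finset.Ico m (n + 1), a j / ((⌊S j⌋₊ + 1 : ℕ) : ℝ) := by
      rw [Finset.sum_Ico_eq_sub _ (by omega : m ≤ n + 1)]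
    rw [h3] at h2
    have h4 : (S n - S m) / (S n + 1) ≤ ∑ j ∈ Finset.Ico m (n + 1), a j / ((⌊S j⌋₊ + 1 : ℕ) : ℝ) := by
      have h5 : S n - S m ≤ ∑ j ∈ Finset.Ico m (n + 1), a j := by
        rw [Finset.sum_Ico_eq_sub _ (by omega : m ≤ n + 1)]
        have h6 : ∑ j ∈ Finset.range m, a j ≤ S m := Finset.sum_le_sum_of_subset_of_nonneg
          (Finset.range_mono (by omega)) fun j _ _ => ha j
        show S n - S m ≤ S n - _
        linarith
      calc (S n - S m) / (S n + 1) ≤ (∑ j ∈ Finset.Ico m (n + 1), a j) / (S n + 1) :=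
            div_le_div_of_nonneg_right h5 (by linarith [hS0 n])
        _ = ∑ j ∈ Finset.Ico m (n + 1), a j / (S n + 1) := by rw [Finset.sum_div]
        _ ≤ _ := by
            refine Finset.sum_le_sum fun j hj => ?_
            have hjn : j ≤ n := by have := (Finset.mem_Ico.1 hj).2; omega
            exact div_le_div_of_nonneg_left (ha j) (hpos j) ((he j).trans (by linarith [hmono hjn]))
    have h7 : (1 : ℝ) / 2 ≤ (S n - S m) / (S n + 1) := by
      rw [div_le_div_iff₀ (by norm_num) (by linarith [hS0 n])]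
      linarith
    linarith

variable {p : ℕ} [hp : Fact p.Prime] (h3 : 3 ≤ p) {G : ℕ → Type} [∀ i, AddCommGroup (G i)] (hG : IsEnum p G)

include hG in
theorem idx_exists (e m : ℕ) : ∃ i, Nonempty ((Fin m → ZMod (p ^ e)) ≃+ G i) := hG.surj _ (isP_pow (isP_zmod e) m)

theorem naut_congr {A B : Type} [AddCommGroup A] [AddCommGroup B] (e : A ≃+ B) : naut A = naut B := by
  unfold naut
  refine Nat.card_congr ⟨fun f => (e.symm.trans f).trans e, fun f => (e.trans f).trans e.symm, fun f => ?_, fun f => ?_⟩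
  · ext x
    simp
  · ext x
    simp

theorem nsur_congr_right (A : Type) [AddCommGroup A] {B C : Type} [AddCommGroup B] [AddCommGroup C] (e : B ≃+ C) :
    nsur A B = nsur A C := by
  unfold nsur
  refine Nat.card_congr ⟨fun f => ⟨(e : B →+ C).comp f.1, e.surjective.comp f.2⟩,
    fun f => ⟨(e.symm : C →+ B).comp f.1, e.symm.surjective.comp f.2⟩, fun f => ?_, fun f => ?_⟩
  · apply Subtype.ext
    ext x
    simp
  · apply Subtype.ext
    ext x
    simp

include h3 hG in
/-- the cost of the group `(Z/p^e)^m` -/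
theorem idx_cost {e m i : ℕ} (hi : Nonempty ((Fin m → ZMod (p ^ e)) ≃+ G i)) :
    0 < (clG G).real {i} ∧ Real.log (1 / (clG G).real {i}) ≤ e * (m : ℝ) ^ 2 * Real.log p + Real.log 2 := by
  obtain ⟨f⟩ := hi
  have hpp : 0 < p := hp.out.pos
  have := (hG.isP i).finite
  have h1 := nw_ge h3 hG i
  have h2 : naut (G i) ≤ (p ^ (e * m)) ^ m := by
    rw [← naut_congr f]
    exact naut_zmod_le e m
  have h4 : (0 : ℝ) < naut (G i) := by exact_mod_cast naut_pos (G i)
  have h5 : (0 : ℝ) < W G i := by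
    unfold W
    positivity
  have h6 : 0 < (clG G).real {i} := by
    rw [clG_real h3 hG]
    linarith
  refine ⟨h6, ?_⟩
  rw [one_div, Real.log_inv, clG_real h3 hG]
  have h7 : (1 : ℝ) / (((p : ℝ) ^ (e * m)) ^ m * 2) ≤ nw G i := by
    refine le_trans ?_ h1
    unfold W
    rw [div_div]
    refine one_div_le_one_div_of_le (by positivity) ?_
    have : (naut (G i) : ℝ) ≤ ((p : ℝ) ^ (e * m)) ^ m := by exact_mod_cast h2
    linarith
  have h8 := Real.log_le_log (by positivity) h7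
  rw [one_div, Real.log_inv, Real.log_mul (by positivity) (by norm_num), Real.log_pow, Real.log_pow] at h8
  push_cast at h8
  nlinarith

include h3 hG in
/-- **unbounded moments of all groups at once for budgets which are not summable** -/
theorem moments_of_not_summable {d : ℕ → ℝ} (hd : ∀ k, 0 ≤ d k) (hs : ¬ Summable fun k : ℕ => d k / (k : ℝ) ^ 2) :
    ∃ (Ω : Type) (_ : MeasurableSpace Ω) (μ : Measure Ω) (_ : IsProbabilityMeasure μ) (g : ℕ → Ω → ℕ),
      (∀ n, Measurable (g n)) ∧ (∀ k, relEntropy (clG G) μ g k ≤ ENNReal.ofReal (d k)) ∧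
      ∀ᵐ ω ∂μ, ∀ (H : Type) [AddCommGroup H], IsP p H → Nat.card H ≠ 1 → ∀ A : ℝ,
        ∃ᶠ N in atTop, A ≤ mean (fun i => (nsur (G i) H : ℝ)) (fun n => g n ω) N := by
  have hcl : IsProbabilityMeasure (clG G) := clG_prob h3 hG
  obtain ⟨e, he1, he2, he3⟩ := abel_dini (fun k => div_nonneg (hd k) (sq_nonneg (k : ℝ))) hs
  choose idx hidx using fun k => idx_exists hG (e k) k
  have hlp : 0 < Real.log p := Real.log_pos (by exact_mod_cast hp.out.one_lt)
  have hl2 : 0 < Real.log 2 := Real.log_pos (by norm_num)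
  have hreal : ∀ k, (prodN (clG G) (2 ^ k)).real {x | x ⟨0, Nat.two_pow_pos k⟩ = idx k} = (clG G).real {idx k} :=
    fun k => first_real _ _
  set C : ℝ := Real.log p + Real.log 2 with hC
  have hC0 : 0 < C := by positivity
  obtain ⟨Ω, mΩ, μ, hμ, g, h1, h2, h4⟩ := build (ν := clG G) hd
    (fun k => {x : Fin (2 ^ k) → ℕ | x ⟨0, Nat.two_pow_pos k⟩ = idx k})
    (fun k => e k * (k : ℝ) ^ 2 * Real.log p + Real.log 2) (fun k => by positivity)
    (fun k => by rw [hreal]; exact (idx_cost h3 hG (hidx k)).1)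
    (fun k => by rw [hreal]; exact (idx_cost h3 hG (hidx k)).2)
    (fun h => he3 (by
      refine Summable.of_nonneg_of_le (fun k => by have := hd k; positivity) (fun k => ?_) (h.mul_left C)
      rcases Nat.eq_zero_or_pos k with rfl | hk
      · have h5 := hd 0
        simp only [Nat.cast_zero, ne_eq, OfNat.ofNat_ne_zero, not_false_eq_true, zero_pow, div_zero, zero_div]
        positivity
      · have hk1 : (1 : ℝ) ≤ k := by exact_mod_cast hk
        have hek : (1 : ℝ) ≤ e k := by exact_mod_cast he1 k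
        have h6 : (1 : ℝ) ≤ (e k : ℝ) * (k : ℝ) ^ 2 := one_le_mul_of_one_le_of_one_le hek (one_le_pow₀ hk1)
        have h7 : (e k : ℝ) * (k : ℝ) ^ 2 * Real.log p + Real.log 2 ≤ C * ((e k : ℝ) * (k : ℝ) ^ 2) := by
          rw [hC]
          nlinarith
        have h8 : C * (d k / (C * ((e k : ℝ) * (k : ℝ) ^ 2))) = d k / (k : ℝ) ^ 2 / e k := by
          field_simp
        show d k / (k : ℝ) ^ 2 / e k ≤ C * (d k / (e k * (k : ℝ) ^ 2 * Real.log p + Real.log 2))
        rw [← h8]
        exact mul_le_mul_of_nonneg_left (div_le_div_of_nonneg_left (hd k) (by positivity) h7) hC0.le))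
  refine ⟨Ω, mΩ, μ, hμ, g, h1, h2, ?_⟩
  filter_upwards [h4] with ω hω H _ hH hH1 A
  have hfin := hH.finite
  obtain ⟨a, ha⟩ := hH
  have ha0 : a ≠ 0 := by
    rintro rfl
    exact hH1 (by simpa using ha)
  have hp3 : (3 : ℝ) ≤ p := by exact_mod_cast h3
  have hcard : (3 : ℝ) ≤ (Nat.card H : ℝ) := by
    rw [ha]
    push_cast
    calc (3 : ℝ) ≤ p := hp3
      _ = (p : ℝ) ^ 1 := (pow_one _).symm
      _ ≤ (p : ℝ) ^ a := pow_le_pow_right₀ (by linarith) (by omega)
  have hkill : ∀ᶠ k in atTop, ∀ x : H, (p ^ e k) • x = 0 := by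
    filter_upwards [he2.eventually (eventually_ge_atTop a)] with k hk x
    have h5 : (p ^ a) • x = 0 := by
      rw [← ha]
      exact card_nsmul_eq_zero'
    obtain ⟨b, hb⟩ := Nat.exists_eq_add_of_le hk
    rw [hb, pow_add, mul_comm, mul_smul, h5, smul_zero]
  have hA : ∀ᶠ k : ℕ in atTop, A ≤ (3 / 2 : ℝ) ^ k / 2 := by
    have := (tendsto_pow_atTop_atTop_of_one_lt (by norm_num : (1 : ℝ) < 3 / 2)).eventually (eventually_ge_atTop (2 * A))
    filter_upwards [this] with k hk
    linarith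
  have hfr : ∃ᶠ k in atTop, A ≤ mean (fun i => (nsur (G i) H : ℝ)) (fun n => g n ω) (2 ^ k) := by
    refine (hω.and_eventually (hkill.and (hA.and (eventually_ge_atTop (rk p H))))).mono ?_
    rintro k ⟨h5, h6, h7, h8⟩
    have h9 : g (2 ^ k) ω = idx k := h5
    refine h7.trans ?_
    unfold mean
    have h10 : (nsur (G (idx k)) H : ℝ) ≤ ∑ n ∈ Finset.Icc 1 (2 ^ k), (nsur (G (g n ω)) H : ℝ) := by
      rw [← h9]
      exact Finset.single_le_sum (f := fun n => (nsur (G (g n ω)) H : ℝ)) (fun i _ => Nat.cast_nonneg _)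
        (Finset.mem_Icc.2 ⟨Nat.one_le_two_pow, le_rfl⟩)
    obtain ⟨f⟩ := hidx k
    have h11 := nsur_zmod_ge h3 (show IsP p H from ⟨a, ha⟩) h6 h8
    rw [nsur_congr f H] at h11
    have h12 : (3 : ℝ) ^ k ≤ (Nat.card H : ℝ) ^ k := pow_le_pow_left₀ (by norm_num) hcard k
    rw [div_pow]
    push_cast
    rw [div_div, div_le_div_iff₀ (by positivity) (by positivity)]
    have h13 : (3 : ℝ) ^ k / 2 ≤ ∑ n ∈ Finset.Icc 1 (2 ^ k), (nsur (G (g n ω)) H : ℝ) := by linarith
    have h14 : (0 : ℝ) < 2 ^ k := by positivity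
    nlinarith
  exact (tendsto_pow_atTop_atTop_of_one_lt (by norm_num : 1 < 2)).frequently hfr

end

end Pool.Agent.Q197.MG
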