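import Pool.Agent.Q197.MG.Enum

/-!
# Project MG, module Mass: the moments of the Cohen-Lenstra measure are one
-/

set_option autoImplicit false

open Filter
open scoped ENNReal Classical Topology

namespace Pool.Agent.Q197.MG

noncomputable section

/-- the weight `1 / #Aut (G i)` -/
def W (G : ℕ → Type) [∀ i, AddCommGroup (G i)] (i : ℕ) : ℝ := 1 / naut (G i)

variable {p : ℕ} [hp : Fact p.Prime] (h3 : 3 ≤ p) {G : ℕ → Type} [∀ i, AddCommGroup (G i)] (hG : IsEnum p G)

theorem W_nonneg (i : ℕ) : 0 ≤ W G i := by unfold W; positivity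

include hG in
theorem W_pos (i : ℕ) : 0 < W G i := by
  have hf := (hG.isP i).finite
  have := naut_pos (G i)
  unfold W
  positivity

include hG in
theorem finite_mass (n : ℕ) (H : Type) [AddCommGroup H] (hH : IsP p H) :
    ∑' i, (nsur (Fn n) (G i) : ℝ≥0∞) * (naut (G i) : ℝ≥0∞)⁻¹ * (gn p n (Nat.card (G i)) * nsur (G i) H) =
      nsur (Fn n) H * (((Nat.card H : ℕ) : ℝ≥0∞) ^ n)⁻¹ * zz p n := by
  have hf := hH.finite
  rw [gsum hG n (g := gn p n) (fun m hm => by unfold gn; rw [if_neg hm]) (fun i => (nsur (G i) H : ℝ≥0∞))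
    (fun L => (nsur (Fn n ⧸ L) H : ℝ≥0∞)) fun L i ⟨e⟩ => by rw [nsur_congr e H], transfer]
  obtain ⟨h, hh⟩ := hH
  simp only [hh, gn_mul]
  rw [ENNReal.tsum_mul_left, mul_assoc]
  rfl

include h3 hG in
theorem hasSum_n (n : ℕ) (H : Type) [AddCommGroup H] (hH : IsP p H) :
    HasSum (fun i => cc n (G i) * W G i * nsur (G i) H) (cc n H * (zz p n).toReal) := by
  have hf := hH.finite
  have hz : zz p n ≠ ⊤ := ne_top_of_le_ne_top (by norm_num) (zz_le h3 n)
  have e1 : ∀ i, ENNReal.ofReal (cc n (G i) * W G i * nsur (G i) H) =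
      (nsur (Fn n) (G i) : ℝ≥0∞) * (naut (G i) : ℝ≥0∞)⁻¹ * (gn p n (Nat.card (G i)) * nsur (G i) H) := by
    intro i
    have hfi := (hG.isP i).finite
    have hc : (0 : ℝ) < (Nat.card (G i) : ℝ) ^ n := by
      have : 0 < Nat.card (G i) := Nat.card_pos
      positivity
    have ha : (0 : ℝ) < naut (G i) := by exact_mod_cast naut_pos (G i)
    unfold gn cc W
    rw [if_pos (show ∃ k, Nat.card (G i) = p ^ k from hG.isP i), ENNReal.ofReal_mul (by positivity), ENNReal.ofReal_mul (by positivity), one_div,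
      ENNReal.ofReal_inv_of_pos ha, ENNReal.ofReal_natCast, ENNReal.ofReal_natCast, div_eq_mul_inv,
      ENNReal.ofReal_mul (by positivity), ENNReal.ofReal_inv_of_pos hc, ENNReal.ofReal_pow (by positivity),
      ENNReal.ofReal_natCast, ENNReal.ofReal_natCast]
    ring
  have hcH : (0 : ℝ) < (Nat.card H : ℝ) ^ n := by
    have : 0 < Nat.card H := Nat.card_pos
    positivity
  have e2 : ENNReal.ofReal (cc n H * (zz p n).toReal) =
      nsur (Fn n) H * (((Nat.card H : ℕ) : ℝ≥0∞) ^ n)⁻¹ * zz p n := by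
    unfold cc
    rw [ENNReal.ofReal_mul (by positivity), ENNReal.ofReal_toReal hz, div_eq_mul_inv,
      ENNReal.ofReal_mul (by positivity), ENNReal.ofReal_inv_of_pos hcH, ENNReal.ofReal_pow (by positivity),
      ENNReal.ofReal_natCast, ENNReal.ofReal_natCast]
  have h1 : ∑' i, ENNReal.ofReal (cc n (G i) * W G i * nsur (G i) H) = ENNReal.ofReal (cc n H * (zz p n).toReal) := by
    rw [e2, ← finite_mass hG n H hH]
    exact tsum_congr e1
  have hnn : ∀ i, 0 ≤ cc n (G i) * W G i * nsur (G i) H := fun i =>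
    mul_nonneg (mul_nonneg (cc_nonneg _ _) (W_nonneg i)) (Nat.cast_nonneg _)
  have hs : Summable fun i => cc n (G i) * W G i * nsur (G i) H := by
    have h2 := ENNReal.summable_toReal (f := fun i => ENNReal.ofReal (cc n (G i) * W G i * nsur (G i) H))
      (by rw [h1]; exact ENNReal.ofReal_ne_top)
    refine h2.congr fun i => ?_
    rw [ENNReal.toReal_ofReal (hnn i)]
  have h4 : ∑' i, cc n (G i) * W G i * nsur (G i) H = cc n H * (zz p n).toReal := by
    have h5 := ENNReal.ofReal_tsum_of_nonneg hnn hs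
    rw [h1] at h5
    have h6 := congrArg ENNReal.toReal h5
    rw [ENNReal.toReal_ofReal (tsum_nonneg hnn), ENNReal.toReal_ofReal (mul_nonneg (cc_nonneg _ _) ENNReal.toReal_nonneg)]
      at h6
    exact h6
  rw [← h4]
  exact hs.hasSum

theorem nsur_unit (A : Type) [AddCommGroup A] : nsur A PUnit = 1 := by
  unfold nsur
  have : Unique {f : A →+ PUnit // Function.Surjective f} :=
    { default := ⟨0, fun y => ⟨0, rfl⟩⟩
      uniq := fun f => Subtype.ext (AddMonoidHom.ext fun x => rfl) }
  exact Nat.card_unique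

theorem isP_unit : IsP p PUnit := ⟨0, by simp⟩

include h3 hG in
theorem hasSum_one (n : ℕ) : HasSum (fun i => cc n (G i) * W G i) (zz p n).toReal := by
  have h := hasSum_n h3 hG n PUnit isP_unit
  have e : cc n PUnit = 1 := by
    unfold cc
    rw [nsur_unit]
    simp
  simp only [e, one_mul, nsur_unit, Nat.cast_one, mul_one] at h
  exact h

include h3 in
theorem zz_toReal_le (n : ℕ) : (zz p n).toReal ≤ 2 := by
  have h := ENNReal.toReal_mono (by norm_num) (zz_le h3 n)
  simpa using h

include hG in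
theorem cc_tendsto' (i : ℕ) : Tendsto (fun n => cc n (G i)) atTop (𝓝 1) := cc_tendsto (hG.isP i)

include h3 hG in
theorem sum_W_le (T : Finset ℕ) : ∑ i ∈ T, W G i ≤ 2 := by
  have h1 : Tendsto (fun n => ∑ i ∈ T, cc n (G i) * W G i) atTop (𝓝 (∑ i ∈ T, 1 * W G i)) :=
    tendsto_finset_sum _ fun i _ => (cc_tendsto' hG i).mul_const _
  simp only [one_mul] at h1
  refine le_of_tendsto' h1 fun n => ?_
  exact (sum_le_hasSum T (fun i _ => mul_nonneg (cc_nonneg _ _) (W_nonneg i)) (hasSum_one h3 hG n)).trans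
    (zz_toReal_le h3 n)

include h3 hG in
theorem summable_W : Summable (W G) := summable_of_sum_le (fun i => W_nonneg i) (sum_W_le h3 hG)

include h3 hG in
theorem zz_tendsto : Tendsto (fun n => (zz p n).toReal) atTop (𝓝 (∑' i, W G i)) := by
  have h := tendsto_tsum_of_dominated_convergence (f := fun n i => cc n (G i) * W G i) (g := W G) (bound := W G)
    (𝓕 := atTop) (summable_W h3 hG) (fun i => by
      have := (cc_tendsto' hG i).mul_const (W G i)
      rwa [one_mul] at this) (Eventually.of_forall fun n i => by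
      have hf := (hG.isP i).finite
      rw [Real.norm_eq_abs, abs_of_nonneg (mul_nonneg (cc_nonneg _ _) (W_nonneg i))]
      exact mul_le_of_le_one_left (W_nonneg i) (cc_le n (G i)))
  refine h.congr fun n => ?_
  exact (hasSum_one h3 hG n).tsum_eq

include h3 hG in
theorem sum_moment_le (H : Type) [AddCommGroup H] (hH : IsP p H) (T : Finset ℕ) :
    ∑ i ∈ T, W G i * nsur (G i) H ≤ ∑' i, W G i := by
  have hf := hH.finite
  have h1 : Tendsto (fun n => ∑ i ∈ T, cc n (G i) * (W G i * nsur (G i) H)) atTop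
      (𝓝 (∑ i ∈ T, 1 * (W G i * nsur (G i) H))) :=
    tendsto_finset_sum _ fun i _ => (cc_tendsto' hG i).mul_const _
  simp only [one_mul] at h1
  refine le_of_tendsto_of_tendsto' h1 (zz_tendsto h3 hG) fun n => ?_
  have h2 := sum_le_hasSum T (fun i _ => mul_nonneg (mul_nonneg (cc_nonneg _ _) (W_nonneg i)) (Nat.cast_nonneg _))
    (hasSum_n h3 hG n H hH)
  simp only [mul_assoc] at h2
  exact h2.trans (mul_le_of_le_one_left ENNReal.toReal_nonneg (cc_le n H))

include h3 hG in
theorem summable_moment (H : Type) [AddCommGroup H] (hH : IsP p H) : Summable fun i => W G i * nsur (G i) H :=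
  summable_of_sum_le (fun i => mul_nonneg (W_nonneg i) (Nat.cast_nonneg _)) (sum_moment_le h3 hG H hH)

include h3 hG in
/-- **the moments of the Cohen-Lenstra measure** -/
theorem moment (H : Type) [AddCommGroup H] (hH : IsP p H) : ∑' i, W G i * nsur (G i) H = ∑' i, W G i := by
  have hf := hH.finite
  have h := tendsto_tsum_of_dominated_convergence (f := fun n i => cc n (G i) * (W G i * nsur (G i) H))
    (g := fun i => W G i * nsur (G i) H) (bound := fun i => W G i * nsur (G i) H)
    (𝓕 := atTop) (summable_moment h3 hG H hH) (fun i => by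
      have := (cc_tendsto' hG i).mul_const (W G i * nsur (G i) H)
      rwa [one_mul] at this) (Eventually.of_forall fun n i => by
      have hf := (hG.isP i).finite
      have h0 : 0 ≤ W G i * nsur (G i) H := mul_nonneg (W_nonneg i) (Nat.cast_nonneg _)
      rw [Real.norm_eq_abs, abs_of_nonneg (mul_nonneg (cc_nonneg _ _) h0)]
      exact mul_le_of_le_one_left h0 (cc_le n (G i)))
  have h2 : Tendsto (fun n => cc n H * (zz p n).toReal) atTop (𝓝 (1 * ∑' i, W G i)) :=
    (cc_tendsto hH).mul (zz_tendsto h3 hG)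
  rw [one_mul] at h2
  refine tendsto_nhds_unique (h.congr fun n => ?_) h2
  have h4 := (hasSum_n h3 hG n H hH).tsum_eq
  simp only [mul_assoc] at h4
  exact h4

include h3 hG in
theorem mass_le : ∑' i, W G i ≤ 2 := (summable_W h3 hG).tsum_le_of_sum_le (sum_W_le h3 hG)

end

end Pool.Agent.Q197.MG
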