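import Pool.Agent.Q197.MG.Rec
import Pool.Agent.Q197.MG.Mass

/-!
# Project MG, module Mgf: all moments of the number of homomorphisms under the Cohen-Lenstra measure
-/

set_option autoImplicit false

open Filter
open scoped ENNReal Classical Topology

namespace Pool.Agent.Q197.MG

noncomputable section

variable {p : ℕ} [hp : Fact p.Prime]

theorem tsum_half : ∑' j : ℕ, ((2 : ℝ≥0∞) ^ j)⁻¹ = 2 := by
  have h : ∀ j : ℕ, ((2 : ℝ≥0∞) ^ j)⁻¹ = (2⁻¹) ^ j := fun j => ENNReal.inv_pow.symm ▸ rfl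
  rw [tsum_congr h, ENNReal.tsum_geometric, ENNReal.one_sub_inv_two, inv_inv]

theorem geo_aux (c : ℕ) : ∑' r : ℕ, ((2 : ℝ≥0∞) ^ ((r - c) + (c - r)))⁻¹ ≤ 4 := by
  rw [← Summable.sum_add_tsum_nat_add' (k := c) ENNReal.summable]
  have h1 : ∑' j : ℕ, ((2 : ℝ≥0∞) ^ ((j + c - c) + (c - (j + c))))⁻¹ = 2 := by
    refine Eq.trans ?_ tsum_half
    refine tsum_congr fun j => ?_
    have : j + c - c + (c - (j + c)) = j := by omega
    rw [this]
  have h2 : ∑ r ∈ Finset.range c, ((2 : ℝ≥0∞) ^ ((r - c) + (c - r)))⁻¹ ≤ 2 := by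
    rw [← Finset.sum_range_reflect]
    calc ∑ j ∈ Finset.range c, ((2 : ℝ≥0∞) ^ ((c - 1 - j - c) + (c - (c - 1 - j))))⁻¹
        ≤ ∑ j ∈ Finset.range c, ((2 : ℝ≥0∞) ^ j)⁻¹ := by
          refine Finset.sum_le_sum fun j hj => ?_
          rw [Finset.mem_range] at hj
          rw [ENNReal.inv_le_inv]
          exact pow_le_pow_right₀ (by norm_num) (by omega)
      _ ≤ ∑' j : ℕ, ((2 : ℝ≥0∞) ^ j)⁻¹ := ENNReal.sum_le_tsum _
      _ = 2 := tsum_half
  rw [h1]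
  calc _ ≤ (2 : ℝ≥0∞) + 2 := add_le_add h2 le_rfl
    _ = 4 := by norm_num

theorem geo (c : ℕ) : ∑' r : ℕ, ((p : ℝ≥0∞) ^ (2 * (r * c)) * ((p : ℝ≥0∞) ^ (r * r))⁻¹) ≤ 4 * (p : ℝ≥0∞) ^ (c * c) := by
  have hp0 : (p : ℝ≥0∞) ≠ 0 := by exact_mod_cast hp.out.pos.ne'
  have hpt : (p : ℝ≥0∞) ≠ ⊤ := ENNReal.natCast_ne_top _
  have h2p : (2 : ℝ≥0∞) ≤ p := by exact_mod_cast hp.out.two_le
  have h1p : (1 : ℝ≥0∞) ≤ p := le_trans (by norm_num) h2p
  calc ∑' r : ℕ, ((p : ℝ≥0∞) ^ (2 * (r * c)) * ((p : ℝ≥0∞) ^ (r * r))⁻¹)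
      ≤ ∑' r : ℕ, (p : ℝ≥0∞) ^ (c * c) * ((2 : ℝ≥0∞) ^ ((r - c) + (c - r)))⁻¹ := by
        refine ENNReal.tsum_le_tsum fun r => ?_
        have hexp : 2 * (r * c) + ((r - c) + (c - r)) ≤ c * c + r * r := by
          rcases le_total r c with h | h
          · obtain ⟨d, rfl⟩ := Nat.exists_eq_add_of_le h
            have : d ≤ d * d := Nat.le_mul_self d
            have e1 : r - (r + d) + (r + d - r) = d := by omega
            rw [e1]
            nlinarith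
          · obtain ⟨d, rfl⟩ := Nat.exists_eq_add_of_le h
            have : d ≤ d * d := Nat.le_mul_self d
            have e1 : c + d - c + (c - (c + d)) = d := by omega
            rw [e1]
            nlinarith
        have h1 : (p : ℝ≥0∞) ^ (2 * (r * c)) * (2 : ℝ≥0∞) ^ ((r - c) + (c - r)) ≤
            (p : ℝ≥0∞) ^ (c * c) * (p : ℝ≥0∞) ^ (r * r) := by
          calc (p : ℝ≥0∞) ^ (2 * (r * c)) * (2 : ℝ≥0∞) ^ ((r - c) + (c - r))
              ≤ (p : ℝ≥0∞) ^ (2 * (r * c)) * (p : ℝ≥0∞) ^ ((r - c) + (c - r)) :=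
                mul_le_mul_right (pow_le_pow_left' h2p _) _
            _ = (p : ℝ≥0∞) ^ (2 * (r * c) + ((r - c) + (c - r))) := (pow_add _ _ _).symm
            _ ≤ (p : ℝ≥0∞) ^ (c * c + r * r) := pow_le_pow_right₀ h1p hexp
            _ = _ := pow_add _ _ _
        have h2 : (2 : ℝ≥0∞) ^ ((r - c) + (c - r)) ≠ 0 := pow_ne_zero _ (by norm_num)
        have h3 : (2 : ℝ≥0∞) ^ ((r - c) + (c - r)) ≠ ⊤ := ENNReal.pow_ne_top (by norm_num)
        have h4 : (p : ℝ≥0∞) ^ (r * r) ≠ 0 := pow_ne_zero _ hp0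
        have h5 : (p : ℝ≥0∞) ^ (r * r) ≠ ⊤ := ENNReal.pow_ne_top hpt
        rw [← div_eq_mul_inv, ← div_eq_mul_inv]
        rw [ENNReal.div_le_iff h4 h5]
        calc (p : ℝ≥0∞) ^ (2 * (r * c)) =
            (p : ℝ≥0∞) ^ (2 * (r * c)) * (2 : ℝ≥0∞) ^ ((r - c) + (c - r)) / (2 : ℝ≥0∞) ^ ((r - c) + (c - r)) := by
              rw [ENNReal.mul_div_cancel_right h2 h3]
          _ ≤ (p : ℝ≥0∞) ^ (c * c) * (p : ℝ≥0∞) ^ (r * r) / (2 : ℝ≥0∞) ^ ((r - c) + (c - r)) :=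
              ENNReal.div_le_div_right h1 _
          _ = _ := by
              rw [div_eq_mul_inv, div_eq_mul_inv]
              ring
    _ = (p : ℝ≥0∞) ^ (c * c) * ∑' r : ℕ, ((2 : ℝ≥0∞) ^ ((r - c) + (c - r)))⁻¹ := ENNReal.tsum_mul_left
    _ ≤ (p : ℝ≥0∞) ^ (c * c) * 4 := mul_le_mul_right (geo_aux c) _
    _ = _ := mul_comm _ _

variable {G : ℕ → Type} [∀ i, AddCommGroup (G i)] (hG : IsEnum p G)

include hG in
theorem mm_rec (h3 : 3 ≤ p) (H : Type) [AddCommGroup H] [Finite H] (t : ℕ) :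
    MM G H (2 * t) ≤ 8 * (p : ℝ≥0∞) ^ ((rk p H * t) * (rk p H * t)) * MM G (pA p H) (2 * t) := by
  set b := rk p H with hb
  set m := 2 * t with hm
  have h1 : ∀ i, (naut (G i) : ℝ≥0∞)⁻¹ * (nhom (G i) H : ℝ≥0∞) ^ m ≤
      ∑' r : ℕ, (p : ℝ≥0∞) ^ (2 * (r * (b * t))) *
        (if rk p (G i) = r then (naut (G i) : ℝ≥0∞)⁻¹ * (nhom (pA p (G i)) (pA p H) : ℝ≥0∞) ^ m else 0) := by
    intro i
    have hf := (hG.isP i).finite
    refine le_trans ?_ (ENNReal.le_tsum (rk p (G i)))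
    rw [if_pos rfl]
    have h2 : (nhom (G i) H : ℝ≥0∞) ≤ (p : ℝ≥0∞) ^ (rk p (G i) * b) * nhom (pA p (G i)) (pA p H) := by
      have := nhom_le (p := p) (G i) H
      exact_mod_cast this
    calc (naut (G i) : ℝ≥0∞)⁻¹ * (nhom (G i) H : ℝ≥0∞) ^ m
        ≤ (naut (G i) : ℝ≥0∞)⁻¹ * ((p : ℝ≥0∞) ^ (rk p (G i) * b) * nhom (pA p (G i)) (pA p H)) ^ m :=
          mul_le_mul_right (pow_le_pow_left' h2 _) _
      _ = _ := by
          rw [mul_pow, ← pow_mul]
          have : rk p (G i) * b * m = 2 * (rk p (G i) * (b * t)) := by rw [hm]; ring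
          rw [this]
          ring
  calc MM G H m ≤ ∑' i, ∑' r : ℕ, (p : ℝ≥0∞) ^ (2 * (r * (b * t))) *
        (if rk p (G i) = r then (naut (G i) : ℝ≥0∞)⁻¹ * (nhom (pA p (G i)) (pA p H) : ℝ≥0∞) ^ m else 0) :=
        ENNReal.tsum_le_tsum h1
    _ = ∑' r : ℕ, (p : ℝ≥0∞) ^ (2 * (r * (b * t))) * ∑' i,
        (if rk p (G i) = r then (naut (G i) : ℝ≥0∞)⁻¹ * (nhom (pA p (G i)) (pA p H) : ℝ≥0∞) ^ m else 0) := by
        rw [ENNReal.tsum_comm]
        exact tsum_congr fun r => ENNReal.tsum_mul_left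
    _ ≤ ∑' r : ℕ, (p : ℝ≥0∞) ^ (2 * (r * (b * t))) * (2 * ((p : ℝ≥0∞) ^ (r * r))⁻¹ * MM G (pA p H) m) :=
        ENNReal.tsum_le_tsum fun r => mul_le_mul_right (rank_sum hG h3 r (pA p H) m) _
    _ = (∑' r : ℕ, ((p : ℝ≥0∞) ^ (2 * (r * (b * t))) * ((p : ℝ≥0∞) ^ (r * r))⁻¹)) * (2 * MM G (pA p H) m) := by
        rw [← ENNReal.tsum_mul_right]
        exact tsum_congr fun r => by ring
    _ ≤ (4 * (p : ℝ≥0∞) ^ ((b * t) * (b * t))) * (2 * MM G (pA p H) m) := mul_le_mul_left (geo (b * t)) _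
    _ = (4 * 2) * (p : ℝ≥0∞) ^ ((b * t) * (b * t)) * MM G (pA p H) m := by ring
    _ = _ := by norm_num

include hG in
theorem mm_unit (h3 : 3 ≤ p) : ∑' i, (naut (G i) : ℝ≥0∞)⁻¹ ≤ 2 := by
  have h1 : ∀ i, (naut (G i) : ℝ≥0∞)⁻¹ = ENNReal.ofReal (W G i) := fun i => by
    have hf := (hG.isP i).finite
    have ha : (0 : ℝ) < naut (G i) := by exact_mod_cast naut_pos (G i)
    unfold W
    rw [one_div, ENNReal.ofReal_inv_of_pos ha, ENNReal.ofReal_natCast]
  rw [tsum_congr h1, ← ENNReal.ofReal_tsum_of_nonneg (fun i => W_nonneg i) (summable_W h3 hG)]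
  have := ENNReal.ofReal_le_ofReal (mass_le h3 hG)
  simpa using this

include hG in
/-- **all moments of the number of homomorphisms** -/
theorem mm_bound (h3 : 3 ≤ p) : ∀ (N : ℕ) (H : Type) [AddCommGroup H], IsP p H → Nat.card H ≤ N →
    ∃ C : ℝ≥0∞, C ≠ ⊤ ∧ ∀ t, MM G H (2 * t) ≤ C * (nhom H H : ℝ≥0∞) ^ (t * t) := by
  intro N
  induction N with
  | zero =>
    intro H _ hH hN
    have hf := hH.finite
    have : 0 < Nat.card H := Nat.card_pos
    omega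
  | succ N ih =>
    intro H _ hH hN
    have hf := hH.finite
    by_cases h1 : Nat.card H = 1
    · have hss : Subsingleton H := (Nat.card_eq_one_iff_unique.1 h1).1
      have hone : ∀ (A : Type) [AddCommGroup A], nhom A H = 1 := fun A _ => by
        unfold nhom
        have : Unique (A →+ H) := { default := 0, uniq := fun f => AddMonoidHom.ext fun x => Subsingleton.elim _ _ }
        exact Nat.card_unique
      refine ⟨2, by norm_num, fun t => ?_⟩
      unfold MM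
      simp only [hone, Nat.cast_one, one_pow, mul_one]
      exact mm_unit hG h3
    · have hr := rk_pos hH h1
      have hc := card_pA (p := p) H
      have hlt : Nat.card (pA p H) ≤ N := by
        have h2 : 0 < Nat.card (pA p H) := Nat.card_pos
        have h4 : 2 ≤ p ^ rk p H := by
          calc 2 ≤ p := hp.out.two_le
            _ = p ^ 1 := (pow_one p).symm
            _ ≤ _ := Nat.pow_le_pow_right hp.out.pos hr
        have h5 : 2 * Nat.card (pA p H) ≤ Nat.card H := by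
          rw [hc]
          exact Nat.mul_le_mul_right _ h4
        omega
      obtain ⟨C, hC, hb⟩ := ih (pA p H) (hH.sub _) hlt
      refine ⟨8 * C, ENNReal.mul_ne_top (by norm_num) hC, fun t => ?_⟩
      have h6 : (nhom H H : ℝ≥0∞) = (p : ℝ≥0∞) ^ (rk p H * rk p H) * nhom (pA p H) (pA p H) := by
        rw [← nhom_self h3 hH]
        push_cast
        ring
      calc MM G H (2 * t) ≤ 8 * (p : ℝ≥0∞) ^ ((rk p H * t) * (rk p H * t)) * MM G (pA p H) (2 * t) := mm_rec hG h3 H t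
        _ ≤ 8 * (p : ℝ≥0∞) ^ ((rk p H * t) * (rk p H * t)) * (C * (nhom (pA p H) (pA p H) : ℝ≥0∞) ^ (t * t)) :=
            mul_le_mul_right (hb t) _
        _ = _ := by
            rw [h6, mul_pow, ← pow_mul]
            have : (rk p H * t) * (rk p H * t) = rk p H * rk p H * (t * t) := by ring
            rw [this]
            ring

end

end Pool.Agent.Q197.MG
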