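import Pool.Agent.Q197.MG.Abs

/-!
# Project MG, module NotLaw: the law fails for budgets which are not summable
-/

set_option autoImplicit false

open MeasureTheory ProbabilityTheory Filter Asymptotics InformationTheory
open Pool.Agent.Q197.ML (block mean sm sm_add)
open scoped ENNReal Topology

namespace Pool.Agent.Q197.MG

noncomputable section

/-- all values of the block are `i0` -/
def consts (i0 k : ℕ) : Set (Fin (2 ^ k) → ℕ) := {x | ∀ i, x i = i0}

theorem consts_real (ν : Measure ℕ) [IsProbabilityMeasure ν] (i0 k : ℕ) :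
    (prodN ν (2 ^ k)).real (consts i0 k) = ν.real {i0} ^ (2 ^ k) := by
  have e : consts i0 k = Set.pi Set.univ fun _ => ({i0} : Set ℕ) := by
    ext x
    simp [consts]
  rw [e, prodN, measureReal_def, Measure.pi_pi, Finset.prod_const, Finset.card_univ, Fintype.card_fin,
    ENNReal.toReal_pow]
  rfl

/-- a deterministic lemma: constant blocks prevent the convergence of all frequencies -/
theorem no_limit {x : ℕ → ℕ} {i0 j : ℕ} {z : ℝ} (hz0 : 0 < z) (hz1 : z < 1)
    (hω : ∃ᶠ k in atTop, ∀ i : Fin (2 ^ k), x (2 ^ k + i) = i0) :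
    ¬ Tendsto (fun N => mean (ind j) x N) atTop (𝓝 z) := by
  intro hT
  set F : ℕ → ℝ := fun N => mean (ind j) x N with hF
  have t1 : Tendsto (fun k : ℕ => 2 ^ k - 1) atTop atTop := by
    refine tendsto_atTop_mono (fun k => ?_) (tendsto_id (α := ℕ) |>.comp tendsto_id)
    have : k < 2 ^ k := Nat.lt_two_pow_self
    simp only [Function.comp, id]
    omega
  have t2 : Tendsto (fun k : ℕ => F (2 ^ k - 1)) atTop (𝓝 z) := hT.comp t1
  have t3 : Tendsto (fun k : ℕ => F (2 ^ (k + 1) - 1)) atTop (𝓝 z) := t2.comp (tendsto_add_atTop_nat 1)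
  have t4 : Tendsto (fun k : ℕ => 1 / (2 : ℝ) ^ k) atTop (𝓝 0) := by
    have := tendsto_pow_atTop_nhds_zero_of_lt_one (by norm_num : (0 : ℝ) ≤ 1 / 2) (by norm_num)
    refine this.congr fun k => ?_
    rw [one_div_pow]
  have t5 : Tendsto (fun k : ℕ => F (2 ^ (k + 1) - 1) * (2 - 1 / (2 : ℝ) ^ k) - F (2 ^ k - 1) * (1 - 1 / (2 : ℝ) ^ k) -
      ind j i0) atTop (𝓝 (z * (2 - 0) - z * (1 - 0) - ind j i0)) :=
    ((t3.mul (tendsto_const_nhds.sub t4)).sub (t2.mul (tendsto_const_nhds.sub t4))).sub tendsto_const_nhds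
  have hne : z * (2 - 0) - z * (1 - 0) - ind j i0 ≠ 0 := by
    intro h
    unfold ind at h
    split_ifs at h <;> linarith
  have hev := t5.eventually_ne hne
  obtain ⟨k, h1, h2, h3⟩ := (hω.and_eventually (hev.and (eventually_ge_atTop 1))).exists
  apply h2
  have hz' : ∀ i < 2 ^ k, x (2 ^ k + i) = i0 := fun i hi => h1 ⟨i, hi⟩
  have hsum : ∀ N : ℕ, 1 ≤ N → F (2 ^ N - 1) * ((2 : ℝ) ^ N - 1) = ∑ n ∈ Finset.Icc 1 (2 ^ N - 1), ind j (x n) := by
    intro N hN
    have h4 : 1 < 2 ^ N := Nat.one_lt_two_pow (by omega)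
    have h5 : ((2 ^ N - 1 : ℕ) : ℝ) = (2 : ℝ) ^ N - 1 := by
      rw [Nat.cast_sub h4.le]
      push_cast
      ring
    have h6 : (2 : ℝ) ^ N - 1 ≠ 0 := by
      rw [← h5]
      have : 0 < 2 ^ N - 1 := by omega
      positivity
    simp only [hF, mean, h5]
    field_simp
  have e1 := hsum k h3
  have e2 := hsum (k + 1) (by omega)
  have hIcc : ∀ N : ℕ, Finset.Icc 1 (2 ^ N - 1) = Finset.Ico 1 (2 ^ N) := fun N => by
    ext n
    have := Nat.one_le_two_pow (n := N)
    simp only [Finset.mem_Icc, Finset.mem_Ico]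
    omega
  have e3 : ∑ n ∈ Finset.Icc 1 (2 ^ (k + 1) - 1), ind j (x n) =
      ∑ n ∈ Finset.Icc 1 (2 ^ k - 1), ind j (x n) + 2 ^ k * ind j i0 := by
    rw [hIcc, hIcc]
    have h7 := sm_add (fun n => ind j (x n)) (M := 2 ^ k) Nat.one_le_two_pow (2 ^ k)
    unfold sm at h7
    rw [← two_mul, ← pow_succ'] at h7
    rw [h7]
    congr 1
    rw [Finset.sum_congr rfl (g := fun _ => ind j i0) fun i hi => ?_, Finset.sum_const, Finset.card_range, nsmul_eq_mul]
    · push_cast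
      ring
    · rw [hz' i (Finset.mem_range.1 hi)]
  rw [← e1, ← e2] at e3
  have h8 : (0 : ℝ) < 2 ^ k := by positivity
  have e4 : F (2 ^ (k + 1) - 1) * (2 - 1 / (2 : ℝ) ^ k) - F (2 ^ k - 1) * (1 - 1 / (2 : ℝ) ^ k) - ind j i0 =
      (F (2 ^ (k + 1) - 1) * ((2 : ℝ) ^ (k + 1) - 1) - (F (2 ^ k - 1) * ((2 : ℝ) ^ k - 1) + 2 ^ k * ind j i0)) / 2 ^ k := by
    rw [pow_succ]
    field_simp
    ring
  rw [e4, e3]
  simp

/-- **the law fails for budgets which are not summable, for all values at once** -/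
theorem law_of_not_summable {ν : Measure ℕ} [IsProbabilityMeasure ν] (hν : ∀ j, 0 < ν.real {j} ∧ ν.real {j} < 1)
    (i0 : ℕ) {d : ℕ → ℝ} (hd : ∀ k, 0 ≤ d k) (hs : ¬ Summable fun k : ℕ => d k / (2 : ℝ) ^ k) :
    ∃ (Ω : Type) (_ : MeasurableSpace Ω) (μ : Measure Ω) (_ : IsProbabilityMeasure μ) (g : ℕ → Ω → ℕ),
      (∀ n, Measurable (g n)) ∧ (∀ k, relEntropy ν μ g k ≤ ENNReal.ofReal (d k)) ∧
      ∀ᵐ ω ∂μ, ∀ j, ¬ Tendsto (fun N => mean (ind j) (fun n => g n ω) N) atTop (𝓝 (ν.real {j})) := by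
  obtain ⟨hz0, hz1⟩ := hν i0
  set z := ν.real {i0} with hz
  set C : ℝ := Real.log (1 / z) with hC
  have hC0 : 0 < C := Real.log_pos (by rw [lt_div_iff₀ hz0]; linarith)
  obtain ⟨Ω, mΩ, μ, hμ, g, h1, h2, h3⟩ := build (ν := ν) hd (fun k => consts i0 k) (fun k => (2 : ℝ) ^ k * C)
    (fun k => by positivity) (fun k => by rw [consts_real]; exact pow_pos hz0 _)
    (fun k => by
      rw [consts_real, ← hz, one_div, Real.log_inv, Real.log_pow, hC, one_div, Real.log_inv]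
      push_cast
      linarith)
    (fun h => hs ((h.mul_left C).congr fun k => by field_simp))
  refine ⟨Ω, mΩ, μ, hμ, g, h1, h2, ?_⟩
  filter_upwards [h3] with ω hω j
  exact no_limit (hν j).1 (hν j).2 hω

end

end Pool.Agent.Q197.MG
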