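import Pool.Agent.Q197.MG.Lat

/-!
# Project MG, module Pgrp: ranks and homomorphisms of finite abelian `p`-groups
-/

set_option autoImplicit false

open scoped ENNReal Classical

namespace Pool.Agent.Q197.MG

noncomputable section

/-- multiplication by `p` -/
def mp (p : ℕ) (A : Type) [AddCommGroup A] : A →+ A := nsmulAddMonoidHom p

theorem mp_apply (p : ℕ) {A : Type} [AddCommGroup A] (x : A) : mp p A x = p • x := rfl

/-- the subgroup `p A` -/
def pA (p : ℕ) (A : Type) [AddCommGroup A] : AddSubgroup A := (mp p A).range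

/-- the subgroup `A[p]` -/
def tor (p : ℕ) (A : Type) [AddCommGroup A] : AddSubgroup A := (mp p A).ker

/-- the `p`-rank -/
def rk (p : ℕ) (A : Type) [AddCommGroup A] : ℕ := Nat.log p (Nat.card (A ⧸ pA p A))

/-- groups of order a power of `p` -/
def IsP (p : ℕ) (A : Type) [AddCommGroup A] : Prop := ∃ k, Nat.card A = p ^ k

theorem mem_pA {p : ℕ} {A : Type} [AddCommGroup A] {x : A} : x ∈ pA p A ↔ ∃ y, p • y = x := Iff.rfl

theorem mem_tor {p : ℕ} {A : Type} [AddCommGroup A] {x : A} : x ∈ tor p A ↔ p • x = 0 := Iff.rfl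

variable {p : ℕ} [hp : Fact p.Prime]

theorem IsP.finite {A : Type} [AddCommGroup A] (h : IsP p A) : Finite A := by
  obtain ⟨k, hk⟩ := h
  apply Nat.finite_of_card_ne_zero
  rw [hk]
  exact (pow_pos hp.out.pos k).ne'

theorem quot_killed (A : Type) [AddCommGroup A] (x : A ⧸ pA p A) : p • x = 0 := by
  obtain ⟨y, rfl⟩ := QuotientAddGroup.mk_surjective x
  rw [← QuotientAddGroup.mk_nsmul, QuotientAddGroup.eq_zero_iff]
  exact ⟨y, rfl⟩

theorem tor_killed (A : Type) [AddCommGroup A] (x : tor p A) : p • x = 0 := by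
  apply Subtype.ext
  exact x.2

theorem vec_aux (V W : Type) [AddCommGroup V] [AddCommGroup W] [Finite V] [Module (ZMod p) V] [Module (ZMod p) W] :
    ∃ r, Nat.card V = p ^ r ∧ Nat.card (V →+ W) = Nat.card W ^ r := by
  have hfin : Module.Finite (ZMod p) V := Module.Finite.of_finite
  have hfree : Module.Free (ZMod p) V := inferInstance
  let b := Module.finBasis (ZMod p) V
  refine ⟨Module.finrank (ZMod p) V, ?_, ?_⟩
  · rw [Nat.card_congr b.equivFun.toEquiv, Nat.card_fun, Nat.card_fin, Nat.card_zmod]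
  · have e2 : (V →+ W) ≃ (Fin (Module.finrank (ZMod p) V) → W) :=
      (AddMonoidHom.toZModLinearMapEquiv p).toEquiv.trans (b.constr (ZMod p)).symm.toEquiv
    rw [Nat.card_congr e2, Nat.card_fun, Nat.card_fin]

/-- homomorphisms from an elementary group -/
theorem nhom_vec (V B : Type) [AddCommGroup V] [AddCommGroup B] [Finite V] (hV : ∀ x : V, p • x = 0) :
    ∃ r, Nat.card V = p ^ r ∧ nhom V B = Nat.card (tor p B) ^ r := by
  obtain ⟨r, h1, h2⟩ := @vec_aux p hp V (tor p B) _ _ _ (AddCommGroup.zmodModule hV)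
    (AddCommGroup.zmodModule (tor_killed B))
  refine ⟨r, h1, ?_⟩
  have e : (V →+ B) ≃ (V →+ tor p B) :=
    { toFun := fun f => f.codRestrict (tor p B) fun v => by rw [mem_tor, ← map_nsmul, hV, map_zero]
      invFun := fun g => (tor p B).subtype.comp g
      left_inv := fun f => by ext x; rfl
      right_inv := fun g => by ext x; rfl }
  unfold nhom
  rw [Nat.card_congr e, h2]

theorem card_quot (A : Type) [AddCommGroup A] [Finite (A ⧸ pA p A)] : Nat.card (A ⧸ pA p A) = p ^ rk p A := by
  obtain ⟨r, h1, _⟩ := nhom_vec (p := p) (A ⧸ pA p A) (A ⧸ pA p A) (quot_killed A)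
  unfold rk
  rw [h1, Nat.log_pow hp.out.one_lt]

theorem card_tor (A : Type) [AddCommGroup A] [Finite A] : Nat.card (tor p A) = p ^ rk p A := by
  have h1 := (tor p A).card_mul_index
  have h2 := (pA p A).card_mul_index
  have h3 : (tor p A).index = Nat.card (pA p A) := AddSubgroup.index_ker _
  have h4 : (pA p A).index = Nat.card (A ⧸ pA p A) := rfl
  rw [h3] at h1
  rw [h4, card_quot] at h2
  have h5 : 0 < Nat.card (pA p A) := Nat.card_pos
  have h6 : Nat.card (pA p A) * Nat.card (tor p A) = Nat.card (pA p A) * p ^ rk p A := by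
    rw [h2, mul_comm, h1]
  exact Nat.eq_of_mul_eq_mul_left h5 h6

/-- homomorphisms from `A / p A` to `B` -/
theorem nhom_quot (A B : Type) [AddCommGroup A] [AddCommGroup B] [Finite A] [Finite B] :
    nhom (A ⧸ pA p A) B = p ^ (rk p A * rk p B) := by
  obtain ⟨r, h1, h2⟩ := nhom_vec (p := p) (A ⧸ pA p A) B (quot_killed A)
  rw [h2, card_tor, ← pow_mul]
  congr 1
  rw [card_quot] at h1
  have := Nat.pow_right_injective hp.out.two_le h1
  rw [this, mul_comm]

/-- homomorphisms that vanish on `p A` -/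
theorem nhom_kill (A B : Type) [AddCommGroup A] [AddCommGroup B] :
    Nat.card {f : A →+ B // ∀ x ∈ pA p A, f x = 0} = nhom (A ⧸ pA p A) B := by
  unfold nhom
  refine Nat.card_congr
    { toFun := fun f => QuotientAddGroup.lift (pA p A) f.1 f.2
      invFun := fun g => ⟨g.comp (QuotientAddGroup.mk' (pA p A)), fun x hx => by
        show g (QuotientAddGroup.mk x) = 0
        rw [(QuotientAddGroup.eq_zero_iff x).2 hx, map_zero]⟩
      left_inv := fun f => by
        apply Subtype.ext
        ext x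
        rfl
      right_inv := fun g => by
        ext x
        rfl }

theorem nhom_zmod (A : Type) [AddCommGroup A] [Finite A] : nhom A (ZMod p) = p ^ rk p A := by
  have h1 : ∀ (f : A →+ ZMod p) (x : A), x ∈ pA p A → f x = 0 := by
    rintro f x ⟨y, rfl⟩
    rw [mp_apply, map_nsmul]
    simp
  have h2 := nhom_kill (p := p) A (ZMod p)
  have h3 : nhom A (ZMod p) = Nat.card {f : A →+ ZMod p // ∀ x ∈ pA p A, f x = 0} := by
    unfold nhom
    exact Nat.card_congr ⟨fun f => ⟨f, h1 f⟩, fun f => f.1, fun f => rfl, fun f => rfl⟩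
  rw [h3, h2]
  obtain ⟨r, h4, h5⟩ := nhom_vec (p := p) (A ⧸ pA p A) (ZMod p) (quot_killed A)
  have h6 : Nat.card (tor p (ZMod p)) = p := by
    have : tor p (ZMod p) = ⊤ := by
      ext x
      simp [mem_tor]
    rw [this, Nat.card_congr (AddSubgroup.topEquiv).toEquiv, Nat.card_zmod]
  rw [h5, h6, ← h4, card_quot]

/-- a nontrivial `p`-group has positive rank -/
theorem rk_pos {A : Type} [AddCommGroup A] (hA : IsP p A) (h1 : Nat.card A ≠ 1) : 1 ≤ rk p A := by
  have hf := hA.finite
  by_contra hcon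
  have h0 : rk p A = 0 := by omega
  have h2 := card_quot (p := p) A
  rw [h0, pow_zero] at h2
  have h3 : pA p A = ⊤ := by
    rw [← AddSubgroup.index_eq_one]
    exact h2
  have hs : Function.Surjective (mp p A) := AddMonoidHom.range_eq_top.1 h3
  have hi : Function.Injective (mp p A) := Finite.injective_iff_surjective.2 hs
  apply h1
  obtain ⟨k, hk⟩ := hA
  have h4 : ∀ (j : ℕ) (x : A), p ^ j • x = 0 → x = 0 := by
    intro j
    induction j with
    | zero => intro x hx; simpa using hx
    | succ j ih =>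
      intro x hx
      apply ih
      apply hi
      rw [mp_apply, mp_apply, smul_zero, ← mul_smul, ← pow_succ', hx]
  have h5 : ∀ x : A, x = 0 := fun x => h4 k x (by rw [← hk]; exact card_nsmul_eq_zero')
  have : Subsingleton A := ⟨fun a b => by rw [h5 a, h5 b]⟩
  exact Nat.card_unique

/-- surjections onto `ℤ/p` -/
theorem nsur_zmod (A : Type) [AddCommGroup A] [Finite A] : nsur A (ZMod p) + 1 = p ^ rk p A := by
  have hsur : ∀ f : A →+ ZMod p, f ≠ 0 → Function.Surjective f := by
    intro f hf
    rw [← AddMonoidHom.range_eq_top]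
    have hc : Fact (Nat.card (ZMod p)).Prime := by rw [Nat.card_zmod]; exact hp
    rcases AddSubgroup.eq_bot_or_eq_top_of_prime_card f.range with h | h
    · exact absurd ((AddMonoidHom.range_eq_bot_iff).1 h) hf
    · exact h
  have hne : ∀ f : A →+ ZMod p, Function.Surjective f → f ≠ 0 := by
    rintro f hf rfl
    obtain ⟨x, hx⟩ := hf 1
    simp at hx
  have h1 : nsur A (ZMod p) = Nat.card {f : A →+ ZMod p // f ≠ 0} := by
    unfold nsur
    exact Nat.card_congr ⟨fun f => ⟨f.1, hne f.1 f.2⟩, fun f => ⟨f.1, hsur f.1 f.2⟩, fun f => rfl, fun f => rfl⟩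
  rw [h1, ← nhom_zmod]
  unfold nhom
  have e : Option {f : A →+ ZMod p // f ≠ 0} ≃ (A →+ ZMod p) := Equiv.optionSubtypeNe 0
  rw [← Nat.card_congr e, Finite.card_option]

end

end Pool.Agent.Q197.MG
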