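import Pool.Agent.Q197.MG.Mgf

/-!
# Project MG, module Pow: the groups `H ^ t` and `(ℤ/p^e)^m`
-/

set_option autoImplicit false

open Filter
open scoped ENNReal Classical Topology

namespace Pool.Agent.Q197.MG

noncomputable section

variable {p : ℕ} [hp : Fact p.Prime]

theorem naut_le (A : Type) [AddCommGroup A] [Finite A] : naut A ≤ nhom A A := by
  unfold naut nhom
  exact Nat.card_le_card_of_injective (fun e : A ≃+ A => (e : A →+ A)) fun e f h => by
    ext x
    exact DFunLike.congr_fun h x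

theorem isP_pow {H : Type} [AddCommGroup H] (hH : IsP p H) (t : ℕ) : IsP p (Fin t → H) := by
  obtain ⟨k, hk⟩ := hH
  refine ⟨k * t, ?_⟩
  rw [Nat.card_fun, Nat.card_fin, hk, ← pow_mul]

theorem nhom_pow_le (H : Type) [AddCommGroup H] [Finite H] (t : ℕ) :
    nhom (Fin t → H) (Fin t → H) ≤ nhom H H ^ (t * t) := by
  have h1 : Nat.card (Fin t × Fin t → (H →+ H)) = nhom H H ^ (t * t) := by
    rw [Nat.card_fun, Nat.card_prod, Nat.card_fin]
    rfl
  rw [← h1]
  unfold nhom
  refine Nat.card_le_card_of_injective (fun (f : (Fin t → H) →+ (Fin t → H)) (ij : Fin t × Fin t) =>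
    ((Pi.evalAddMonoidHom (fun _ : Fin t => H) ij.2).comp f).comp (AddMonoidHom.single (fun _ : Fin t => H) ij.1)) ?_
  intro f g hfg
  refine AddMonoidHom.ext fun x => ?_
  funext j
  have h2 : ∀ i (h : H), f (Pi.single i h) j = g (Pi.single i h) j := fun i h => by
    have := congrFun hfg (i, j)
    exact DFunLike.congr_fun this h
  rw [← Finset.univ_sum_single x, map_sum, map_sum, Finset.sum_apply, Finset.sum_apply]
  exact Finset.sum_congr rfl fun i _ => h2 i (x i)

theorem nsur_pow_ge (H : Type) [AddCommGroup H] [Finite H] (t : ℕ) :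
    nhom H H ^ t ≤ nsur (Fin (t + 1) → H) H := by
  have h1 : Nat.card (Fin t → (H →+ H)) = nhom H H ^ t := by
    rw [Nat.card_fun, Nat.card_fin]
    rfl
  rw [← h1]
  unfold nsur
  set F : (Fin t → (H →+ H)) → ((Fin (t + 1) → H) →+ H) := fun g =>
    Pi.evalAddMonoidHom (fun _ : Fin (t + 1) => H) 0 +
      ∑ i, (g i).comp (Pi.evalAddMonoidHom (fun _ : Fin (t + 1) => H) i.succ) with hF
  have hFa : ∀ g x, F g x = x 0 + ∑ i, g i (x i.succ) := fun g x => by
    simp only [hF, AddMonoidHom.add_apply, AddMonoidHom.finset_sum_apply]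
    rfl
  have hsur : ∀ g, Function.Surjective (F g) := fun g h => by
    refine ⟨Pi.single 0 h, ?_⟩
    rw [hFa]
    simp
  have hfs : Finite {f : (Fin (t + 1) → H) →+ H // Function.Surjective f} :=
    Finite.of_injective (fun f : {f : (Fin (t + 1) → H) →+ H // Function.Surjective f} => f.1) Subtype.val_injective
  refine Nat.card_le_card_of_injective (fun g => (⟨F g, hsur g⟩ : {f : (Fin (t + 1) → H) →+ H // Function.Surjective f})) ?_
  intro g g' hgg
  have h2 : F g = F g' := congrArg Subtype.val hgg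
  funext j
  refine AddMonoidHom.ext fun h => ?_
  have h3 := DFunLike.congr_fun h2 (Pi.single j.succ h)
  rw [hFa, hFa] at h3
  have h4 : ∀ g : Fin t → (H →+ H), ∑ i, g i ((Pi.single j.succ h : Fin (t + 1) → H) i.succ) = g j h := fun g => by
    rw [Finset.sum_eq_single j]
    · simp
    · intro i _ hij
      have : i.succ ≠ j.succ := fun h => hij (Fin.succ_injective _ h)
      rw [Pi.single_eq_of_ne this, map_zero]
    · simp
  rw [h4, h4] at h3
  exact add_left_cancel h3

/-! ### the groups `(ℤ/p^e)^m` -/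

theorem isP_zmod (e : ℕ) : IsP p (ZMod (p ^ e)) := ⟨e, by rw [Nat.card_zmod]⟩

/-- the reduction `ℤ^m → (ℤ/p^e)^m` -/
def redn (p e m : ℕ) : Fn m →+ (Fin m → ZMod (p ^ e)) := (Int.castAddHom (ZMod (p ^ e))).compLeft (Fin m)

theorem redn_surj (e m : ℕ) : Function.Surjective (redn p e m) := by
  intro y
  have : NeZero (p ^ e) := ⟨(pow_pos hp.out.pos e).ne'⟩
  refine ⟨fun i => ((y i).val : ℤ), ?_⟩
  funext i
  show (((y i).val : ℤ) : ZMod (p ^ e)) = y i
  simp

theorem naut_zmod_le (e m : ℕ) : naut (Fin m → ZMod (p ^ e)) ≤ (p ^ (e * m)) ^ m := by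
  have : NeZero (p ^ e) := ⟨(pow_pos hp.out.pos e).ne'⟩
  have h2 : nhom (Fin m → ZMod (p ^ e)) (Fin m → ZMod (p ^ e)) ≤ nhom (Fn m) (Fin m → ZMod (p ^ e)) := by
    unfold nhom
    refine Nat.card_le_card_of_injective (fun f : (Fin m → ZMod (p ^ e)) →+ (Fin m → ZMod (p ^ e)) =>
      f.comp (redn p e m)) ?_
    intro f g h
    refine AddMonoidHom.ext fun y => ?_
    obtain ⟨x, rfl⟩ := redn_surj (p := p) e m y
    exact DFunLike.congr_fun h x
  rw [nhom_Fn, Nat.card_fun, Nat.card_fin, Nat.card_zmod, ← pow_mul] at h2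
  have e1 : (p ^ e) ^ (m * m) = (p ^ (e * m)) ^ m := by rw [← pow_mul, ← pow_mul, mul_assoc]
  rw [e1] at h2
  exact (naut_le _).trans h2

theorem nsur_zmod_eq {H : Type} [AddCommGroup H] [Finite H] {e : ℕ} (he : ∀ x : H, (p ^ e) • x = 0) (m : ℕ) :
    nsur (Fin m → ZMod (p ^ e)) H = nsur (Fn m) H := by
  unfold nsur
  have hker : ∀ f : Fn m →+ H, (redn p e m).ker ≤ f.ker := by
    intro f x hx
    have h1 : ∀ i, ∃ z : ℤ, x i = (p ^ e : ℕ) * z := fun i => by
      have h2 : ((x i : ℤ) : ZMod (p ^ e)) = 0 := congrFun hx i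
      exact (ZMod.intCast_zmod_eq_zero_iff_dvd _ _).1 h2
    choose z hz using h1
    have h2 : x = (p ^ e) • (z : Fn m) := by
      funext i
      rw [hz i]
      simp
    rw [AddMonoidHom.mem_ker, h2, map_nsmul, he]
  refine Nat.card_congr
    { toFun := fun f => ⟨f.1.comp (redn p e m), f.2.comp (redn_surj e m)⟩
      invFun := fun f => ⟨(redn p e m).liftOfSurjective (redn_surj e m) ⟨f.1, hker f.1⟩, ?_⟩
      left_inv := ?_
      right_inv := ?_ }
  · intro y
    obtain ⟨x, hx⟩ := f.2 y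
    refine ⟨redn p e m x, ?_⟩
    rw [← hx]
    exact (redn p e m).liftOfRightInverse_comp_apply (Function.surjInv (redn_surj e m))
      (Function.rightInverse_surjInv (redn_surj e m)) ⟨f.1, hker f.1⟩ x
  · intro f
    apply Subtype.ext
    refine AddMonoidHom.ext fun y => ?_
    obtain ⟨x, rfl⟩ := redn_surj (p := p) e m y
    exact (redn p e m).liftOfRightInverse_comp_apply (Function.surjInv (redn_surj e m))
      (Function.rightInverse_surjInv (redn_surj e m)) ⟨f.1.comp (redn p e m), hker _⟩ x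
  · intro f
    apply Subtype.ext
    refine AddMonoidHom.ext fun x => ?_
    exact (redn p e m).liftOfRightInverse_comp_apply (Function.surjInv (redn_surj e m))
      (Function.rightInverse_surjInv (redn_surj e m)) ⟨f.1, hker f.1⟩ x

/-- many surjections from `(ℤ/p^e)^m` onto `H` -/
theorem nsur_zmod_ge (h3 : 3 ≤ p) {H : Type} [AddCommGroup H] (hH : IsP p H) {e : ℕ} (he : ∀ x : H, (p ^ e) • x = 0)
    {m : ℕ} (hm : rk p H ≤ m) : (Nat.card H : ℝ) ^ m / 2 ≤ nsur (Fin m → ZMod (p ^ e)) H := by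
  have hf := hH.finite
  rw [nsur_zmod_eq he]
  have hc := cc_ge m hH
  have hp3 : (3 : ℝ) ≤ p := by exact_mod_cast h3
  have h1 : (p : ℝ) ^ rk p H / (((p : ℝ) - 1) * (p : ℝ) ^ m) ≤ 1 / 2 := by
    have h2 : (p : ℝ) ^ rk p H ≤ (p : ℝ) ^ m := pow_le_pow_right₀ (by linarith) hm
    have h4 : (0 : ℝ) < (p : ℝ) ^ m := by positivity
    rw [div_le_div_iff₀ (mul_pos (by linarith) h4) (by norm_num)]
    nlinarith
  have h5 : 1 / 2 ≤ cc m H := by linarith
  have h0 : (0 : ℝ) < (Nat.card H : ℝ) ^ m := by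
    have : 0 < Nat.card H := Nat.card_pos
    positivity
  unfold cc at h5
  rw [le_div_iff₀ h0] at h5
  linarith

end

end Pool.Agent.Q197.MG
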