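import Pool.Agent.Q197.MG.Hom
import Pool.Agent.Q197.MG.Enum

/-!
# Project MG, module Rec: the groups of rank `r` and the moments of the number of homomorphisms
-/

set_option autoImplicit false

open Filter
open scoped ENNReal Classical Topology

namespace Pool.Agent.Q197.MG

noncomputable section

variable {p : ℕ} [hp : Fact p.Prime]

/-- `p A ≃ p B` -/
def pACongr {A B : Type} [AddCommGroup A] [AddCommGroup B] (e : A ≃+ B) : pA p A ≃+ pA p B where
  toFun x := ⟨e x, by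
    obtain ⟨y, hy⟩ := x.2
    refine ⟨e y, ?_⟩
    show p • e y = e x
    rw [← map_nsmul]
    exact congrArg e hy⟩
  invFun x := ⟨e.symm x, by
    obtain ⟨y, hy⟩ := x.2
    refine ⟨e.symm y, ?_⟩
    show p • e.symm y = e.symm x
    rw [← map_nsmul]
    exact congrArg e.symm hy⟩
  left_inv x := Subtype.ext (e.symm_apply_apply x)
  right_inv x := Subtype.ext (e.apply_symm_apply x)
  map_add' x y := Subtype.ext (map_add e (x : A) (y : A))

theorem card_pA (A : Type) [AddCommGroup A] [Finite A] : Nat.card A = p ^ rk p A * Nat.card (pA p A) := by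
  have h2 := (pA p A).card_mul_index
  have h4 : (pA p A).index = Nat.card (A ⧸ pA p A) := rfl
  rw [h4, card_quot] at h2
  rw [← h2, mul_comm]

theorem rk_congr {A B : Type} [AddCommGroup A] [AddCommGroup B] [Finite A] [Finite B] (e : A ≃+ B) :
    rk p A = rk p B := by
  have h1 := card_pA (p := p) A
  have h2 := card_pA (p := p) B
  have h3 : Nat.card A = Nat.card B := Nat.card_congr e.toEquiv
  have h4 : Nat.card (pA p A) = Nat.card (pA p B) := Nat.card_congr (pACongr (p := p) e).toEquiv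
  have h5 : 0 < Nat.card (pA p B) := Nat.card_pos
  rw [h3, h2, h4] at h1
  exact (Nat.pow_right_injective hp.out.two_le (Nat.eq_of_mul_eq_mul_right h5 h1)).symm

theorem mp_inj (n : ℕ) : Function.Injective (mp p (Fn n)) := by
  intro x y h
  funext i
  have h1 : (p • x) i = (p • y) i := congrFun h i
  simp only [Pi.smul_apply, nsmul_eq_mul] at h1
  have h2 : (p : ℤ) ≠ 0 := by exact_mod_cast hp.out.pos.ne'
  exact mul_left_cancel₀ h2 h1

/-- `ℤ^n / K ≃ p (ℤ^n / p K)` -/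
theorem quot_iso (n : ℕ) (K : AddSubgroup (Fn n)) :
    Nonempty ((Fn n ⧸ K) ≃+ pA p (Fn n ⧸ K.map (mp p (Fn n)))) := by
  set L := K.map (mp p (Fn n)) with hL
  set θ : Fn n →+ pA p (Fn n ⧸ L) := (mp p (Fn n ⧸ L)).rangeRestrict.comp (QuotientAddGroup.mk' L) with hθ
  have hs : Function.Surjective θ :=
    (mp p (Fn n ⧸ L)).rangeRestrict_surjective.comp (QuotientAddGroup.mk'_surjective L)
  have hk : θ.ker = K := by
    ext v
    rw [AddMonoidHom.mem_ker]
    have h1 : θ v = 0 ↔ p • v ∈ L := by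
      rw [← QuotientAddGroup.eq_zero_iff (N := L)]
      constructor
      · intro h
        have := congrArg Subtype.val h
        exact this
      · intro h
        apply Subtype.ext
        exact h
    rw [h1]
    constructor
    · rintro ⟨k, hk, hkv⟩
      have : k = v := mp_inj n hkv
      rw [← this]
      exact hk
    · intro hv
      exact ⟨v, hv, rfl⟩
  exact ⟨(QuotientAddGroup.quotientAddEquivOfEq hk.symm).trans (QuotientAddGroup.quotientKerEquivOfSurjective θ hs)⟩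

section

variable {G : ℕ → Type} [∀ i, AddCommGroup (G i)] (hG : IsEnum p G)

/-- the moments of the number of homomorphisms to `B` -/
def MM (G : ℕ → Type) [∀ i, AddCommGroup (G i)] (B : Type) [AddCommGroup B] (m : ℕ) : ℝ≥0∞ :=
  ∑' i, (naut (G i) : ℝ≥0∞)⁻¹ * (nhom (G i) B : ℝ≥0∞) ^ m

include hG in
/-- the groups of rank `r` -/
theorem rank_sum (h3 : 3 ≤ p) (r : ℕ) (B : Type) [AddCommGroup B] (m : ℕ) :
    ∑' i, (if rk p (G i) = r then (naut (G i) : ℝ≥0∞)⁻¹ * (nhom (pA p (G i)) B : ℝ≥0∞) ^ m else 0) ≤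
      2 * ((p : ℝ≥0∞) ^ (r * r))⁻¹ * MM G B m := by
  set h : ℕ → ℝ≥0∞ := fun i => if rk p (G i) = r then
    (((Nat.card (G i) : ℕ) : ℝ≥0∞) ^ r)⁻¹ * (nhom (pA p (G i)) B : ℝ≥0∞) ^ m else 0 with hh
  set h' : ℕ → ℝ≥0∞ := fun j => (((p ^ r * Nat.card (G j) : ℕ) : ℝ≥0∞) ^ r)⁻¹ * (nhom (G j) B : ℝ≥0∞) ^ m with hh'
  -- step A
  have sA : ∀ i, (if rk p (G i) = r then (naut (G i) : ℝ≥0∞)⁻¹ * (nhom (pA p (G i)) B : ℝ≥0∞) ^ m else 0) ≤
      2 * ((nsur (Fn r) (G i) : ℝ≥0∞) * (naut (G i) : ℝ≥0∞)⁻¹ * h i) := by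
    intro i
    simp only [hh]
    split_ifs with hr
    · have hf := (hG.isP i).finite
      have hc := cc_half h3 (hG.isP i)
      rw [hr] at hc
      have hcard : (0 : ℝ) < (Nat.card (G i) : ℝ) ^ r := by
        have : 0 < Nat.card (G i) := Nat.card_pos
        positivity
      have h1 : (1 : ℝ≥0∞) ≤ 2 * ((nsur (Fn r) (G i) : ℝ≥0∞) * (((Nat.card (G i) : ℕ) : ℝ≥0∞) ^ r)⁻¹) := by
        have h2 : (1 : ℝ) ≤ 2 * (nsur (Fn r) (G i) * ((Nat.card (G i) : ℝ) ^ r)⁻¹) := by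
          unfold cc at hc
          have hc' : (1 : ℝ) / 2 ≤ nsur (Fn r) (G i) * ((Nat.card (G i) : ℝ) ^ r)⁻¹ := by
            rw [← div_eq_mul_inv]
            exact hc
          linarith
        have h4 := ENNReal.ofReal_le_ofReal h2
        rw [ENNReal.ofReal_one, ENNReal.ofReal_mul (by norm_num), ENNReal.ofReal_mul (by positivity),
          ENNReal.ofReal_inv_of_pos hcard, ENNReal.ofReal_pow (by positivity), ENNReal.ofReal_natCast,
          ENNReal.ofReal_natCast] at h4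
        simpa using h4
      calc (naut (G i) : ℝ≥0∞)⁻¹ * (nhom (pA p (G i)) B : ℝ≥0∞) ^ m
          = 1 * ((naut (G i) : ℝ≥0∞)⁻¹ * (nhom (pA p (G i)) B : ℝ≥0∞) ^ m) := (one_mul _).symm
        _ ≤ 2 * ((nsur (Fn r) (G i) : ℝ≥0∞) * (((Nat.card (G i) : ℕ) : ℝ≥0∞) ^ r)⁻¹) *
            ((naut (G i) : ℝ≥0∞)⁻¹ * (nhom (pA p (G i)) B : ℝ≥0∞) ^ m) := mul_le_mul_left h1 _
        _ = _ := by ring
    · exact zero_le
  refine (ENNReal.tsum_le_tsum sA).trans ?_
  rw [ENNReal.tsum_mul_left, mul_assoc]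
  refine mul_le_mul_right ?_ _
  rw [star hG]
  -- step C
  set Φ : AddSubgroup (Fn r) → ℝ≥0∞ := fun L => ∑' i, if Nonempty ((Fn r ⧸ L) ≃+ G i) then h i else 0 with hΦ
  set Ψ : AddSubgroup (Fn r) → ℝ≥0∞ := fun K => ∑' j, if Nonempty ((Fn r ⧸ K) ≃+ G j) then h' j else 0 with hΨ
  set e : AddSubgroup (Fn r) → AddSubgroup (Fn r) := fun K => K.map (mp p (Fn r)) with he
  have hei : Function.Injective e := AddSubgroup.map_injective (mp_inj r)
  have hsupp : Function.support Φ ⊆ Set.range e := by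
    intro L hL
    rw [Function.mem_support] at hL
    have hex : ∃ i, Nonempty ((Fn r ⧸ L) ≃+ G i) ∧ h i ≠ 0 := by
      by_contra hcon
      push Not at hcon
      apply hL
      simp only [hΦ]
      refine (tsum_congr fun i => ?_).trans tsum_zero
      split_ifs with hi
      · exact hcon i hi
      · rfl
    obtain ⟨i, ⟨f⟩, hi⟩ := hex
    have hr : rk p (G i) = r := by
      by_contra hcon
      apply hi
      simp only [hh]
      rw [if_neg hcon]
    have hfi := (hG.isP i).finite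
    have hfq : Finite (Fn r ⧸ L) := Finite.of_equiv _ f.symm.toEquiv
    have hr2 : rk p (Fn r ⧸ L) = r := by rw [rk_congr f, hr]
    refine ⟨L.comap (mp p (Fn r)), ?_⟩
    simp only [he]
    rw [AddSubgroup.map_comap_eq]
    refine inf_eq_right.2 fun v hv => ?_
    exact ker_le hr2 (QuotientAddGroup.mk' L) (QuotientAddGroup.mk'_surjective L)
      ((QuotientAddGroup.eq_zero_iff v).2 hv)
  have hle : ∀ K, Φ (e K) ≤ Ψ K := by
    intro K
    by_cases h0 : Φ (e K) = 0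
    · rw [h0]; exact zero_le
    have hex : ∃ i, Nonempty ((Fn r ⧸ e K) ≃+ G i) ∧ h i ≠ 0 := by
      by_contra hcon
      push Not at hcon
      apply h0
      simp only [hΦ]
      refine (tsum_congr fun i => ?_).trans tsum_zero
      split_ifs with hi
      · exact hcon i hi
      · rfl
    obtain ⟨i, ⟨f⟩, hi⟩ := hex
    have hr : rk p (G i) = r := by
      by_contra hcon
      apply hi
      simp only [hh]
      rw [if_neg hcon]
    have hfi := (hG.isP i).finite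
    have hΦi : Φ (e K) = h i := by
      simp only [hΦ]
      rw [tsum_eq_single i]
      · rw [if_pos ⟨f⟩]
      · intro j hj
        rw [if_neg]
        rintro ⟨f'⟩
        exact hj (hG.inj j i ⟨f'.symm.trans f⟩)
    obtain ⟨g1⟩ := quot_iso (p := p) r K
    have g2 : (Fn r ⧸ K) ≃+ pA p (G i) := g1.trans (pACongr f)
    have hPp : IsP p (pA p (G i)) := (hG.isP i).sub _
    obtain ⟨j, ⟨g3⟩⟩ := hG.surj (pA p (G i)) hPp
    have hcardj : Nat.card (G i) = p ^ r * Nat.card (G j) := by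
      rw [card_pA (p := p) (G i), hr, Nat.card_congr g3.toEquiv]
    rw [hΦi]
    have hij : h i = h' j := by
      simp only [hh, hh']
      rw [if_pos hr, hcardj, nhom_congr g3 B]
    rw [hij]
    simp only [hΨ]
    refine le_trans (le_of_eq ?_) (ENNReal.le_tsum j)
    rw [if_pos ⟨g2.trans g3⟩]
  calc ∑' L, Φ L = ∑' K, Φ (e K) := (hei.tsum_eq hsupp).symm
    _ ≤ ∑' K, Ψ K := ENNReal.tsum_le_tsum hle
    _ = ∑' j, (nsur (Fn r) (G j) : ℝ≥0∞) * (naut (G j) : ℝ≥0∞)⁻¹ * h' j := (star hG r h').symm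
    _ ≤ ∑' j, ((p : ℝ≥0∞) ^ (r * r))⁻¹ * ((naut (G j) : ℝ≥0∞)⁻¹ * (nhom (G j) B : ℝ≥0∞) ^ m) := by
        refine ENNReal.tsum_le_tsum fun j => ?_
        have hfj := (hG.isP j).finite
        have h1 : (nsur (Fn r) (G j) : ℝ≥0∞) ≤ ((Nat.card (G j) : ℕ) : ℝ≥0∞) ^ r := by
          have h7 := nsur_le (Fn r) (G j)
          rw [nhom_Fn] at h7
          exact_mod_cast h7
        have h2 : ((Nat.card (G j) : ℕ) : ℝ≥0∞) ^ r ≠ 0 := by
          have : 0 < Nat.card (G j) := Nat.card_pos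
          exact pow_ne_zero _ (by exact_mod_cast this.ne')
        have h4 : ((Nat.card (G j) : ℕ) : ℝ≥0∞) ^ r ≠ ⊤ := ENNReal.pow_ne_top (ENNReal.natCast_ne_top _)
        simp only [hh']
        rw [Nat.cast_mul, Nat.cast_pow, mul_pow, ← pow_mul, ENNReal.mul_inv (Or.inr h4) (Or.inr h2)]
        calc (nsur (Fn r) (G j) : ℝ≥0∞) * (naut (G j) : ℝ≥0∞)⁻¹ *
            (((p : ℝ≥0∞) ^ (r * r))⁻¹ * (((Nat.card (G j) : ℕ) : ℝ≥0∞) ^ r)⁻¹ * (nhom (G j) B : ℝ≥0∞) ^ m)
            ≤ ((Nat.card (G j) : ℕ) : ℝ≥0∞) ^ r * (naut (G j) : ℝ≥0∞)⁻¹ *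
            (((p : ℝ≥0∞) ^ (r * r))⁻¹ * (((Nat.card (G j) : ℕ) : ℝ≥0∞) ^ r)⁻¹ * (nhom (G j) B : ℝ≥0∞) ^ m) :=
              mul_le_mul_left (mul_le_mul_left h1 _) _
          _ = (((Nat.card (G j) : ℕ) : ℝ≥0∞) ^ r * (((Nat.card (G j) : ℕ) : ℝ≥0∞) ^ r)⁻¹) *
            (((p : ℝ≥0∞) ^ (r * r))⁻¹ * ((naut (G j) : ℝ≥0∞)⁻¹ * (nhom (G j) B : ℝ≥0∞) ^ m)) := by ring
          _ = _ := by rw [ENNReal.mul_inv_cancel h2 h4, one_mul]
    _ = _ := by rw [ENNReal.tsum_mul_left]; rfl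

end

end

end Pool.Agent.Q197.MG
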